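import Mathlib

/-!
# Definitions for the statement about sparse p-adic matrices
-/

namespace Pool.Agent.X143.CL

open MeasureTheory

/-- The law of the random matrix `X` supported on `σ`: the entries `X i j` are independent, the
entry `X i j` has the law `μ` (Haar probability measure) if `i ∈ σ j`, and it is `0` otherwise. -/
noncomputable def law {p : ℕ} [Fact p.Prime] [MeasurableSpace ℤ_[p]] (μ : Measure ℤ_[p]) {n : ℕ}
    (σ : Fin n → Finset (Fin n)) : Measure (Fin n → Fin n → ℤ_[p]) :=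
  Measure.pi fun i => Measure.pi fun j => if i ∈ σ j then μ else Measure.dirac 0

/-- The cokernel `ℤ_p^n / X ℤ_p^n`. -/
abbrev Cok {p : ℕ} [Fact p.Prime] {n : ℕ} (X : Fin n → Fin n → ℤ_[p]) : Type :=
  (Fin n → ℤ_[p]) ⧸ LinearMap.range (Matrix.mulVecLin (Matrix.of X))

/-- `c_p = ∏_{i ≥ 1} (1 - p^{-i})`. -/
noncomputable def cp (p : ℕ) : ℝ := ∏' i : ℕ, (1 - ((p : ℝ) ^ (i + 1))⁻¹)

/-- The Cohen-Lenstra mass of `G`. -/
noncomputable def clMass (p : ℕ) (G : Type) [AddCommGroup G] : ℝ :=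
  (1 / (Nat.card (G ≃+ G) : ℝ)) * cp p

end Pool.Agent.X143.CL
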