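import Mathlib

set_option linter.unusedSectionVars false

namespace Pool.Agent.X143.CL

open Finset

section prob

variable {ι M : Type*} [Fintype ι] [DecidableEq ι] [Fintype M] [DecidableEq M]

/-- expectation for independent coordinates with weights `u c`. -/
noncomputable def Ex (u : ι → M → ℝ) (F : (ι → M) → ℝ) : ℝ :=
  ∑ x : ι → M, (∏ c, u c (x c)) * F x

variable {u : ι → M → ℝ}

lemma Ex_const (hu : ∀ c, ∑ v, u c v = 1) (a : ℝ) : Ex u (fun _ => a) = a := by
  unfold Ex
  rw [← Finset.sum_mul, ← Fintype.prod_sum]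
  simp [hu]

lemma Ex_mono (hu0 : ∀ c v, 0 ≤ u c v) {F G : (ι → M) → ℝ} (h : ∀ x, F x ≤ G x) :
    Ex u F ≤ Ex u G := by
  unfold Ex
  exact Finset.sum_le_sum fun x _ =>
    mul_le_mul_of_nonneg_left (h x) (Finset.prod_nonneg fun c _ => hu0 c _)

lemma Ex_nonneg (hu0 : ∀ c v, 0 ≤ u c v) {F : (ι → M) → ℝ} (h : ∀ x, 0 ≤ F x) :
    0 ≤ Ex u F := by
  unfold Ex
  exact Finset.sum_nonneg fun x _ => mul_nonneg (Finset.prod_nonneg fun c _ => hu0 c _) (h x)

lemma Ex_add (F G : (ι → M) → ℝ) : Ex u (fun x => F x + G x) = Ex u F + Ex u G := by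
  unfold Ex
  rw [← Finset.sum_add_distrib]
  exact Finset.sum_congr rfl fun x _ => by ring

lemma Ex_sub (F G : (ι → M) → ℝ) : Ex u (fun x => F x - G x) = Ex u F - Ex u G := by
  unfold Ex
  rw [← Finset.sum_sub_distrib]
  exact Finset.sum_congr rfl fun x _ => by ring

lemma Ex_smul (a : ℝ) (F : (ι → M) → ℝ) : Ex u (fun x => a * F x) = a * Ex u F := by
  unfold Ex
  rw [Finset.mul_sum]
  exact Finset.sum_congr rfl fun x _ => by ring

lemma Ex_sum {κ : Type*} (s : Finset κ) (F : κ → (ι → M) → ℝ) :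
    Ex u (fun x => ∑ k ∈ s, F k x) = ∑ k ∈ s, Ex u (F k) := by
  unfold Ex
  rw [Finset.sum_comm]
  exact Finset.sum_congr rfl fun x _ => by rw [Finset.mul_sum]

/-- resampling one coordinate -/
lemma Ex_resample (hu : ∀ c, ∑ v, u c v = 1) (c : ι) (F : (ι → M) → ℝ) :
    Ex u F = Ex u (fun x => ∑ v, u c v * F (Function.update x c v)) := by
  unfold Ex
  simp_rw [Finset.mul_sum]
  rw [← Fintype.sum_prod_type' (f := fun (x : ι → M) (v : M) =>
    (∏ c', u c' (x c')) * (u c v * F (Function.update x c v)))]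
  have h1 : ∑ x : ι → M, (∏ c', u c' (x c')) * F x
      = ∑ z : (ι → M) × M, (∏ c', u c' (z.1 c')) * (u c z.2 * F z.1) := by
    rw [Fintype.sum_prod_type]
    refine Finset.sum_congr rfl fun x _ => ?_
    simp only
    have : ∑ v, (∏ c', u c' (x c')) * (u c v * F x)
        = (∏ c', u c' (x c')) * ((∑ v, u c v) * F x) := by
      rw [Finset.sum_mul, Finset.mul_sum]
    rw [this, hu, one_mul]
  rw [h1]
  let e : (ι → M) × M ≃ (ι → M) × M :=
    { toFun := fun z => (Function.update z.1 c z.2, z.1 c)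
      invFun := fun z => (Function.update z.1 c z.2, z.1 c)
      left_inv := fun z => by simp
      right_inv := fun z => by simp }
  rw [← Equiv.sum_comp e]
  refine Finset.sum_congr rfl fun z _ => ?_
  obtain ⟨x, v⟩ := z
  simp only [e, Equiv.coe_fn_mk]
  have h2 : ∀ w : M, ∏ c', u c' (Function.update x c w c')
      = u c w * ∏ c' ∈ univ.erase c, u c' (x c') := by
    intro w
    rw [← Finset.mul_prod_erase univ _ (mem_univ c), Function.update_self]
    congr 1
    refine Finset.prod_congr rfl fun c' hc' => ?_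
    rw [Function.update_of_ne (Finset.ne_of_mem_erase hc')]
  have h3 : ∏ c', u c' (x c') = u c (x c) * ∏ c' ∈ univ.erase c, u c' (x c') :=
    (Finset.mul_prod_erase univ _ (mem_univ c)).symm
  rw [h2, h3]
  ring

/-- glue two families -/
def glue (T : ι → Prop) [DecidablePred T] (Y : {c // T c} → M) (Z : {c // ¬ T c} → M) : ι → M :=
  fun c => if h : T c then Y ⟨c, h⟩ else Z ⟨c, h⟩

omit [Fintype ι] [DecidableEq ι] [Fintype M] [DecidableEq M] in
lemma glue_pos (T : ι → Prop) [DecidablePred T] (Y : {c // T c} → M) (Z : {c // ¬ T c} → M)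
    {c : ι} (h : T c) : glue T Y Z c = Y ⟨c, h⟩ := by simp [glue, h]

omit [Fintype ι] [DecidableEq ι] [Fintype M] [DecidableEq M] in
lemma glue_neg (T : ι → Prop) [DecidablePred T] (Y : {c // T c} → M) (Z : {c // ¬ T c} → M)
    {c : ι} (h : ¬ T c) : glue T Y Z c = Z ⟨c, h⟩ := by simp [glue, h]

lemma Ex_split (T : ι → Prop) [DecidablePred T] (F : (ι → M) → ℝ) :
    Ex u F = ∑ Y : {c // T c} → M, (∏ c : {c // T c}, u c (Y c)) *
      Ex (fun c : {c // ¬ T c} => u c) (fun Z => F (glue T Y Z)) := by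
  unfold Ex
  rw [← Equiv.sum_comp (Equiv.piEquivPiSubtypeProd T (fun _ => M)).symm, Fintype.sum_prod_type]
  refine Finset.sum_congr rfl fun Y _ => ?_
  rw [Finset.mul_sum]
  refine Finset.sum_congr rfl fun Z _ => ?_
  have h1 : (Equiv.piEquivPiSubtypeProd T (fun _ => M)).symm (Y, Z) = glue T Y Z := by
    funext c
    rfl
  rw [h1, ← mul_assoc]
  congr 1
  rw [← Fintype.prod_subtype_mul_prod_subtype T]
  congr 1
  · refine Finset.prod_congr rfl fun c _ => ?_
    rw [glue_pos T Y Z c.2]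
  · refine Finset.prod_congr rfl fun c _ => ?_
    rw [glue_neg T Y Z c.2]

/-- pushing forward each coordinate by the same map -/
lemma Ex_push {M' : Type*} [Fintype M'] [DecidableEq M'] (L : M → M') (g : (ι → M') → ℝ) :
    Ex u (fun x => g (fun c => L (x c))) =
      Ex (fun c h => ∑ v ∈ univ.filter (fun v => L v = h), u c v) g := by
  unfold Ex
  have h1 : ∀ y : ι → M', (∏ c, ∑ v ∈ univ.filter (fun v => L v = y c), u c v) * g y
      = ∑ x ∈ univ.filter (fun x : ι → M => (fun c => L (x c)) = y),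
        (∏ c, u c (x c)) * g (fun c => L (x c)) := by
    intro y
    rw [Finset.prod_univ_sum, Finset.sum_mul]
    apply Finset.sum_congr
    · ext x
      simp [Fintype.mem_piFinset, funext_iff]
    · intro x hx
      rw [Finset.mem_filter] at hx
      rw [hx.2]
  simp_rw [h1]
  exact (Finset.sum_fiberwise (univ : Finset (ι → M)) (fun x => (fun c => L (x c)))
    (fun x => (∏ c, u c (x c)) * g (fun c => L (x c)))).symm

end prob

end Pool.Agent.X143.CL
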