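import Mathlib
import Pool.Agent.X143.CL.Prob

set_option linter.unusedSectionVars false

namespace Pool.Agent.X143.CL

open Finset Matrix

/-- the properties of the reduction `ρ : ZMod (p^N) → ZMod p` which are used. -/
structure Loc (p N : ℕ) {R : Type*} [CommRing R] (ρ : R →+* ZMod p) : Prop where
  surj : Function.Surjective ρ
  unit : ∀ r, ρ r ≠ 0 → IsUnit r
  ker : ∀ r, ρ r = 0 → ∃ s, r = (p : R) * s
  nil : (p : R) ^ N = 0
  card : ∃ m, Nat.card R = p ^ m

section rank

variable {p N : ℕ} [Fact p.Prime] {R : Type*} [CommRing R] [Fintype R] [DecidableEq R]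
  {ρ : R →+* ZMod p} {ι : Type*} [Fintype ι] [DecidableEq ι]

/-- the vectors `x c`, `c ∈ S`, can be completed to a basis. -/
def Ext (S : Finset ι) (x : ι → ι → R) : Prop :=
  ∃ y : Matrix ι ι R, (∀ c ∈ S, y c = x c) ∧ IsUnit y.det

/-- vectors with vanishing reduction -/
def kerM (ι : Type*) (ρ : R →+* ZMod p) : Submodule R (ι → R) where
  carrier := {v | ∀ i, ρ (v i) = 0}
  add_mem' := fun {a b} ha hb i => by
    have h1 := ha i
    have h2 := hb i
    simp [h1, h2]
  zero_mem' := fun i => by simp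
  smul_mem' := fun r a ha i => by
    have h1 := ha i
    simp [h1]

lemma mem_kerM {v : ι → R} : v ∈ kerM ι ρ ↔ ∀ i, ρ (v i) = 0 := Iff.rfl

/-- span of the vectors `x c`, `c ∈ S`, modulo `p` -/
def Usp (ρ : R →+* ZMod p) (S : Finset ι) (x : ι → ι → R) : Submodule R (ι → R) :=
  Submodule.span R (x '' (S : Set ι)) ⊔ kerM ι ρ

lemma Ext_congr {S : Finset ι} {x x' : ι → ι → R} (h : ∀ c ∈ S, x c = x' c) :
    Ext S x ↔ Ext S x' := by
  constructor
  · rintro ⟨y, hy, hd⟩
    exact ⟨y, fun c hc => (hy c hc).trans (h c hc), hd⟩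
  · rintro ⟨y, hy, hd⟩
    exact ⟨y, fun c hc => (hy c hc).trans (h c hc).symm, hd⟩

lemma Usp_congr {S : Finset ι} {x x' : ι → ι → R} (h : ∀ c ∈ S, x c = x' c) :
    Usp ρ S x = Usp ρ S x' := by
  unfold Usp
  have : x '' (S : Set ι) = x' '' (S : Set ι) := Set.image_congr fun c hc => h c hc
  rw [this]

lemma Ext_empty (x : ι → ι → R) : Ext ∅ x := ⟨1, by simp, by simp⟩

lemma Ext_univ (x : ι → ι → R) : Ext univ x ↔ IsUnit (Matrix.det (Matrix.of x)) := by
  constructor
  · rintro ⟨y, hy, hd⟩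
    have : Matrix.of x = y := by
      funext c
      exact (hy c (mem_univ c)).symm
    rw [this]
    exact hd
  · intro h
    exact ⟨Matrix.of x, fun c _ => rfl, h⟩

/-- coordinates with respect to the basis `y`, outside `S`, modulo `p` -/
noncomputable def theta (ρ : R →+* ZMod p) (S : Finset ι) (y : Matrix ι ι R) :
    (ι → R) →+ ({i // i ∉ S} → ZMod p) where
  toFun v := fun i => ρ ((v ᵥ* y⁻¹) i)
  map_zero' := by
    funext i
    simp
  map_add' a b := by
    funext i
    simp [Matrix.add_vecMul]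

lemma row_vecMul_inv {y : Matrix ι ι R} (hy : IsUnit y.det) (c : ι) :
    y c ᵥ* y⁻¹ = Pi.single c 1 := by
  have h1 : Pi.single c 1 ᵥ* y = y c := by
    rw [Matrix.single_one_vecMul]
    rfl
  rw [← h1, Matrix.vecMul_vecMul, Matrix.mul_nonsing_inv y hy, Matrix.vecMul_one]

lemma vecMul_mem_kerM {v : ι → R} (hv : v ∈ kerM ι ρ) (y : Matrix ι ι R) :
    v ᵥ* y ∈ kerM ι ρ := by
  intro i
  simp only [Matrix.vecMul, dotProduct, map_sum, map_mul]
  exact Finset.sum_eq_zero fun j _ => by rw [hv j, zero_mul]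

lemma vecMul_eq_sum (w : ι → R) (y : Matrix ι ι R) : w ᵥ* y = ∑ c, w c • y c := by
  funext i
  simp [Matrix.vecMul, dotProduct, Finset.sum_apply]

lemma ker_theta {S : Finset ι} {x : ι → ι → R} {y : Matrix ι ι R} (hyx : ∀ c ∈ S, y c = x c)
    (hy : IsUnit y.det) : (theta ρ S y).ker = (Usp ρ S x).toAddSubgroup := by
  ext v
  rw [AddMonoidHom.mem_ker, Submodule.mem_toAddSubgroup]
  constructor
  · intro hv
    have h0 : ∀ i, i ∉ S → ρ ((v ᵥ* y⁻¹) i) = 0 := fun i hi => congrFun hv ⟨i, hi⟩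
    have h1 : v = ∑ c, (v ᵥ* y⁻¹) c • y c := by
      rw [← vecMul_eq_sum, Matrix.vecMul_vecMul, Matrix.nonsing_inv_mul y hy, Matrix.vecMul_one]
    rw [h1, ← Finset.sum_add_sum_compl S]
    refine Submodule.add_mem_sup ?_ ?_
    · refine Submodule.sum_mem _ fun c hc => Submodule.smul_mem _ _ ?_
      rw [hyx c hc]
      exact Submodule.subset_span ⟨c, hc, rfl⟩
    · refine Submodule.sum_mem _ fun c hc => ?_
      rw [Finset.mem_compl] at hc
      intro i
      simp [h0 c hc]
  · intro hv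
    unfold Usp at hv
    rw [Submodule.mem_sup] at hv
    obtain ⟨a, ha, b, hb, rfl⟩ := hv
    rw [map_add]
    have h1 : theta ρ S y b = 0 := by
      funext i
      exact vecMul_mem_kerM hb y⁻¹ i
    rw [h1, add_zero]
    induction ha using Submodule.span_induction with
    | mem z hz =>
      obtain ⟨c, hc, rfl⟩ := hz
      funext i
      change ρ ((x c ᵥ* y⁻¹) i) = 0
      rw [← hyx c hc, row_vecMul_inv hy, Pi.single_apply, if_neg, map_zero]
      rintro h
      exact i.2 (h ▸ hc)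
    | zero => exact map_zero _
    | add a b _ _ ha hb => rw [map_add, ha, hb, add_zero]
    | smul r a _ ha =>
      funext i
      have := congrFun ha i
      change ρ ((a ᵥ* y⁻¹) i) = 0 at this
      change ρ (((r • a) ᵥ* y⁻¹) i) = 0
      rw [Matrix.smul_vecMul, Pi.smul_apply, smul_eq_mul, map_mul, this, mul_zero]

lemma theta_surj (hρ : Function.Surjective ρ) {S : Finset ι} {y : Matrix ι ι R}
    (hy : IsUnit y.det) : Function.Surjective (theta ρ S y) := by
  intro z
  choose g hg using hρ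
  refine ⟨(fun i => if h : i ∉ S then g (z ⟨i, h⟩) else 0) ᵥ* y, ?_⟩
  funext i
  change ρ ((((fun i => if h : i ∉ S then g (z ⟨i, h⟩) else 0) ᵥ* y) ᵥ* y⁻¹) i) = z i
  rw [Matrix.vecMul_vecMul, Matrix.mul_nonsing_inv y hy, Matrix.vecMul_one, dif_pos i.2, hg]

lemma index_Usp (hρ : Function.Surjective ρ) {S : Finset ι} {x : ι → ι → R} (hx : Ext S x) :
    (Usp ρ S x).toAddSubgroup.index = p ^ (Fintype.card ι - #S) := by
  obtain ⟨y, hyx, hy⟩ := hx
  rw [← ker_theta hyx hy, AddSubgroup.index_ker,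
    AddMonoidHom.range_eq_top.2 (theta_surj hρ hy), AddSubgroup.card_top,
    Nat.card_fun, Nat.card_zmod]
  congr 1
  rw [Nat.card_eq_fintype_card, Fintype.card_subtype_compl (fun i => i ∈ S)]
  simp

lemma Ext_insert (hρ : Loc p N ρ) {S : Finset ι} {c : ι} (hc : c ∉ S) (x : ι → ι → R) :
    Ext (insert c S) x ↔ Ext S x ∧ x c ∉ Usp ρ S x := by
  constructor
  · rintro ⟨y, hyx, hy⟩
    have hyx' : ∀ c ∈ S, y c = x c := fun c' hc' => hyx c' (mem_insert_of_mem hc')
    refine ⟨⟨y, hyx', hy⟩, ?_⟩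
    intro h
    have h1 : x c ∈ (theta ρ S y).ker := by
      rw [ker_theta hyx' hy]
      exact h
    rw [AddMonoidHom.mem_ker] at h1
    have h2 := congrFun h1 ⟨c, hc⟩
    change ρ ((x c ᵥ* y⁻¹) c) = 0 at h2
    rw [← hyx c (mem_insert_self c S), row_vecMul_inv hy, Pi.single_eq_same, map_one] at h2
    exact one_ne_zero h2
  · rintro ⟨⟨y, hyx, hy⟩, h⟩
    have h1 : x c ∉ (theta ρ S y).ker := by
      rw [ker_theta hyx hy]
      exact h
    rw [AddMonoidHom.mem_ker] at h1
    obtain ⟨i, hi⟩ : ∃ i : {i // i ∉ S}, ρ ((x c ᵥ* y⁻¹) i) ≠ 0 := by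
      by_contra hcon
      push Not at hcon
      exact h1 (funext hcon)
    have hu := hρ.unit _ hi
    have h2 : x c = ∑ k, (x c ᵥ* y⁻¹) k • y k := by
      rw [← vecMul_eq_sum, Matrix.vecMul_vecMul, Matrix.nonsing_inv_mul y hy, Matrix.vecMul_one]
    have h3 : (y.updateRow i (x c)).det = (x c ᵥ* y⁻¹) i • y.det := by
      conv_lhs => rw [h2]
      exact Matrix.det_updateRow_sum y i _
    refine ⟨(y.updateRow i (x c)).submatrix (Equiv.swap c i.1) id, ?_, ?_⟩
    · intro j hj
      rw [Finset.mem_insert] at hj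
      rcases hj with rfl | hj
      · funext k
        simp
      · have hjc : j ≠ c := fun h' => hc (h' ▸ hj)
        have hji : j ≠ i.1 := fun h' => i.2 (h' ▸ hj)
        funext k
        rw [Matrix.submatrix_apply, Equiv.swap_apply_of_ne_of_ne hjc hji, id,
          Matrix.updateRow_ne hji, hyx j hj]
    · rw [Matrix.det_permute, h3, smul_eq_mul]
      refine IsUnit.mul ?_ (hu.mul hy)
      rcases Int.units_eq_one_or (Equiv.Perm.sign (Equiv.swap c i.1)) with h4 | h4 <;>
        rw [h4] <;> simp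

end rank

end Pool.Agent.X143.CL
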