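import Mathlib
import Pool.Agent.X143.CL.Rank

set_option linter.unusedSectionVars false

namespace Pool.Agent.X143.CL

open Finset Matrix
open scoped Classical

section one

variable {M : Type*} [AddCommGroup M] [Fintype M]

/-- uniform weight on a subgroup -/
noncomputable def uw (V : AddSubgroup M) (v : M) : ℝ := if v ∈ V then (Nat.card V : ℝ)⁻¹ else 0

lemma uw_nonneg (V : AddSubgroup M) (v : M) : 0 ≤ uw V v := by
  unfold uw
  split_ifs
  · positivity
  · exact le_rfl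

lemma sum_ind (V : AddSubgroup M) (P : M → Prop) :
    ∑ v, uw V v * (if P v then 1 else 0) = (#{v | v ∈ V ∧ P v} : ℝ) / Nat.card V := by
  have h : ∀ v, uw V v * (if P v then 1 else 0) = if v ∈ V ∧ P v then (Nat.card V : ℝ)⁻¹ else 0 := by
    intro v
    unfold uw
    by_cases h1 : v ∈ V <;> by_cases h2 : P v <;> simp [h1, h2]
  simp_rw [h]
  rw [Finset.sum_ite, Finset.sum_const_zero, add_zero, Finset.sum_const, nsmul_eq_mul,
    div_eq_mul_inv]

lemma card_pos_real (V : AddSubgroup M) : (0 : ℝ) < Nat.card V := by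
  exact_mod_cast Nat.card_pos

lemma sum_uw (V : AddSubgroup M) : ∑ v, uw V v = 1 := by
  have h := sum_ind V (fun _ => True)
  simp only [if_true, mul_one, and_true] at h
  rw [h]
  have h2 : #{v | v ∈ V} = Nat.card V := by
    rw [Nat.card_eq_fintype_card, Fintype.card_subtype]
  rw [h2]
  exact div_self (card_pos_real V).ne'

lemma prob_mem (V U : AddSubgroup M) :
    ∑ v, uw V v * (if v ∈ U then 1 else 0) = ((U.relIndex V : ℕ) : ℝ)⁻¹ := by
  rw [sum_ind]
  have h1 : #{v | v ∈ V ∧ v ∈ U} = Nat.card (U.addSubgroupOf V) := by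
    rw [← AddSubgroup.inf_addSubgroupOf_right,
      Nat.card_congr (AddSubgroup.addSubgroupOfEquivOfLe (inf_le_right : U ⊓ V ≤ V)).toEquiv,
      Nat.card_eq_fintype_card, Fintype.card_subtype]
    congr 1
    ext v
    simp [and_comm]
  have h2 := AddSubgroup.card_mul_index (U.addSubgroupOf V)
  have h3 : (Nat.card V : ℝ) = Nat.card (U.addSubgroupOf V) * (U.relIndex V : ℕ) := by
    rw [← h2]
    push_cast
    rfl
  rw [h1, h3]
  have h4 := card_pos_real V
  rw [h3] at h4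
  have h5 : (Nat.card (U.addSubgroupOf V) : ℝ) ≠ 0 := left_ne_zero_of_mul h4.ne'
  have h6 : ((U.relIndex V : ℕ) : ℝ) ≠ 0 := right_ne_zero_of_mul h4.ne'
  field_simp

lemma prob_not_mem (V U : AddSubgroup M) :
    ∑ v, uw V v * (if v ∉ U then 1 else 0) = 1 - ((U.relIndex V : ℕ) : ℝ)⁻¹ := by
  rw [← prob_mem, eq_sub_iff_add_eq, ← Finset.sum_add_distrib]
  refine Eq.trans (Finset.sum_congr rfl fun v _ => ?_) (sum_uw V)
  by_cases h : v ∈ U <;> simp [h]

lemma relIndex_pos (V U : AddSubgroup M) : 0 < U.relIndex V := by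
  rw [Nat.pos_iff_ne_zero]
  exact AddSubgroup.FiniteIndex.index_ne_zero

lemma step_one {p m : ℕ} [hp : Fact p.Prime] (V U : AddSubgroup M) (hU : U.index = p ^ m) :
    ∑ v, uw V v * (if v ∉ U then 1 else 0)
      ≤ 1 - ((p : ℝ) ^ m)⁻¹ - (if V ⊔ U = ⊤ then 0 else ((p : ℝ) - 1) * ((p : ℝ) ^ m)⁻¹) := by
  rw [prob_not_mem]
  have hp1 : (1 : ℝ) < p := by exact_mod_cast hp.out.one_lt
  have h0 := relIndex_pos V U
  have h1 : U.relIndex V = U.relIndex (V ⊔ U) := (AddSubgroup.relIndex_sup_right V U).symm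
  have h2 : U.relIndex (V ⊔ U) * (V ⊔ U).index = U.index :=
    AddSubgroup.relIndex_mul_index le_sup_right
  rw [← h1, hU] at h2
  have hr : (0 : ℝ) < (U.relIndex V : ℕ) := by exact_mod_cast h0
  have hpm : (0 : ℝ) < (p : ℝ) ^ m := by positivity
  split_ifs with htop
  · rw [htop, AddSubgroup.index_top, mul_one] at h2
    rw [h2]
    push_cast
    linarith
  · have h3 : p ≤ (V ⊔ U).index := by
      have h4 : (V ⊔ U).index ∣ p ^ m := Dvd.intro_left _ h2
      obtain ⟨j, -, hj⟩ := (Nat.dvd_prime_pow hp.out).1 h4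
      have h5 : j ≠ 0 := by
        rintro rfl
        rw [pow_zero] at hj
        exact htop (AddSubgroup.index_eq_one.1 hj)
      rw [hj]
      exact Nat.le_self_pow h5 p
    have h6 : (U.relIndex V : ℝ) * p ≤ (p : ℝ) ^ m := by
      have : U.relIndex V * p ≤ p ^ m := by
        rw [← h2]
        exact Nat.mul_le_mul_left _ h3
      exact_mod_cast this
    have h7 : (p : ℝ) * ((p : ℝ) ^ m)⁻¹ ≤ ((U.relIndex V : ℕ) : ℝ)⁻¹ := by
      rw [← div_eq_mul_inv, div_le_iff₀ hpm, inv_mul_eq_div, le_div_iff₀ hr]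
      linarith
    linarith

end one

section step

variable {p N : ℕ} [Fact p.Prime] {R : Type*} [CommRing R] [Fintype R] [DecidableEq R]
  {ρ : R →+* ZMod p} {ι : Type*} [Fintype ι] [DecidableEq ι]

/-- probability -/
noncomputable def Pr (V : ι → AddSubgroup (ι → R)) (Q : (ι → ι → R) → Prop) : ℝ :=
  Ex (fun c => uw (V c)) (fun x => if Q x then 1 else 0)

lemma Pr_nonneg (V : ι → AddSubgroup (ι → R)) (Q : (ι → ι → R) → Prop) : 0 ≤ Pr V Q :=
  Ex_nonneg (fun c v => uw_nonneg _ _) fun x => by split_ifs <;> norm_num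

lemma Pr_le_one (V : ι → AddSubgroup (ι → R)) (Q : (ι → ι → R) → Prop) : Pr V Q ≤ 1 := by
  rw [← Ex_const (u := fun c => uw (V c)) (fun c => sum_uw (V c)) 1]
  exact Ex_mono (fun c v => uw_nonneg _ _) fun x => by split_ifs <;> norm_num

lemma Pr_mono (V : ι → AddSubgroup (ι → R)) {Q Q' : (ι → ι → R) → Prop} (h : ∀ x, Q x → Q' x) :
    Pr V Q ≤ Pr V Q' := by
  refine Ex_mono (fun c v => uw_nonneg _ _) fun x => ?_
  by_cases h1 : Q x
  · simp [h1, h x h1]
  · simp only [h1, if_false]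
    split_ifs <;> norm_num

/-- the bad event for the column `c` -/
def Bad (ρ : R →+* ZMod p) (V : ι → AddSubgroup (ι → R)) (S : Finset ι) (c : ι)
    (x : ι → ι → R) : Prop :=
  Ext S x ∧ V c ⊔ (Usp ρ S x).toAddSubgroup ≠ ⊤

/-- the basic step inequality -/
lemma step (hρ : Loc p N ρ) (V : ι → AddSubgroup (ι → R)) {S : Finset ι} {c : ι} (hc : c ∉ S) :
    Pr V (Ext (insert c S)) ≤ Pr V (Ext S) * (1 - ((p : ℝ) ^ (Fintype.card ι - #S))⁻¹)
      - Pr V (Bad ρ V S c) * (((p : ℝ) - 1) * ((p : ℝ) ^ (Fintype.card ι - #S))⁻¹) := by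
  unfold Pr
  rw [Ex_resample (fun c => sum_uw (V c)) c, mul_comm (Ex _ _), ← Ex_smul, mul_comm (Ex _ _),
    ← Ex_smul, ← Ex_sub]
  refine Ex_mono (fun c v => uw_nonneg _ _) fun x => ?_
  have hcongr : ∀ v : ι → R, ∀ c' ∈ S, Function.update x c v c' = x c' := by
    intro v c' hc'
    have hne : c' ≠ c := fun h => hc (h ▸ hc')
    exact Function.update_of_ne hne _ _
  have h1 : ∀ v : ι → R, Ext (insert c S) (Function.update x c v)
      ↔ Ext S x ∧ v ∉ (Usp ρ S x).toAddSubgroup := by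
    intro v
    rw [Ext_insert hρ hc, Ext_congr (hcongr v), Usp_congr (hcongr v), Function.update_self]
    rfl
  simp_rw [h1]
  by_cases hx : Ext S x
  · simp only [hx, true_and, if_true, mul_one]
    refine (step_one (V c) _ (index_Usp hρ.surj hx)).trans (le_of_eq ?_)
    unfold Bad
    by_cases h2 : V c ⊔ (Usp ρ S x).toAddSubgroup = ⊤
    · simp [h2]
    · simp [h2, hx]
  · have h3 : ¬ Bad ρ V S c x := fun h => hx h.1
    simp [hx, h3]

/-- `π_m = ∏_{i=1}^m (1 - p^{-i})` -/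
noncomputable def pip (p m : ℕ) : ℝ := ∏ i ∈ range m, (1 - ((p : ℝ) ^ (i + 1))⁻¹)

lemma pip_succ (p m : ℕ) : pip p (m + 1) = pip p m * (1 - ((p : ℝ) ^ (m + 1))⁻¹) := by
  unfold pip
  rw [Finset.prod_range_succ]

lemma pip_factor_pos (p : ℕ) [hp : Fact p.Prime] (i : ℕ) : 0 < 1 - ((p : ℝ) ^ (i + 1))⁻¹ := by
  have hp1 : (1 : ℝ) < p := by exact_mod_cast hp.out.one_lt
  have : (1 : ℝ) < (p : ℝ) ^ (i + 1) := one_lt_pow₀ hp1 (by omega)
  have h2 : ((p : ℝ) ^ (i + 1))⁻¹ < 1 := inv_lt_one_of_one_lt₀ this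
  linarith

lemma pip_pos (p m : ℕ) [Fact p.Prime] : 0 < pip p m :=
  Finset.prod_pos fun i _ => pip_factor_pos p i

/-- monotonicity -/
lemma Pr_Ext_mono (hρ : Loc p N ρ) (V : ι → AddSubgroup (ι → R)) (S : Finset ι) (S' : Finset ι)
    (hd : Disjoint S S') :
    Pr V (Ext (S' ∪ S)) * pip p (Fintype.card ι - #(S' ∪ S))
      ≤ Pr V (Ext S) * pip p (Fintype.card ι - #S) := by
  induction S' using Finset.induction_on with
  | empty => simp
  | insert c S' hc ih =>
    rw [Finset.disjoint_insert_right] at hd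
    refine le_trans ?_ (ih hd.2)
    have hc' : c ∉ S' ∪ S := by
      rw [Finset.mem_union]
      exact not_or.2 ⟨hc, hd.1⟩
    rw [Finset.insert_union, Finset.card_insert_of_notMem hc']
    have h1 := step hρ V hc'
    have h2 : #(S' ∪ S) < Fintype.card ι := by
      refine lt_of_le_of_ne (Finset.card_le_univ _) fun h => ?_
      rw [Finset.card_eq_iff_eq_univ] at h
      exact hc' (h ▸ mem_univ c)
    obtain ⟨k, hk⟩ : ∃ k, Fintype.card ι - #(S' ∪ S) = k + 1 :=
      ⟨Fintype.card ι - #(S' ∪ S) - 1, by omega⟩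
    have hk' : Fintype.card ι - (#(S' ∪ S) + 1) = k := by omega
    rw [hk] at h1
    rw [hk, hk', pip_succ]
    have h3 : 0 ≤ Pr V (Bad ρ V (S' ∪ S) c) * (((p : ℝ) - 1) * ((p : ℝ) ^ (k + 1))⁻¹) := by
      have hp1 : (1 : ℝ) < p := by exact_mod_cast (Fact.out : p.Prime).one_lt
      have := Pr_nonneg V (Bad ρ V (S' ∪ S) c)
      have : (0 : ℝ) ≤ (p : ℝ) - 1 := by linarith
      positivity
    have h4 : Pr V (Ext (insert c (S' ∪ S))) ≤ Pr V (Ext (S' ∪ S)) * (1 - ((p : ℝ) ^ (k + 1))⁻¹) := by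
      linarith
    have h5 := pip_pos p k
    nlinarith

/-- (i): the probability that `S` is extendable -/
lemma Pr_Ext_ge (hρ : Loc p N ρ) (V : ι → AddSubgroup (ι → R)) (S : Finset ι) :
    Pr V (Ext univ) ≤ Pr V (Ext S) * pip p (Fintype.card ι - #S) := by
  have h := Pr_Ext_mono hρ V S Sᶜ disjoint_compl_right
  rw [Finset.union_comm, Finset.union_compl] at h
  simpa [pip] using h

lemma Pr_Ext_le (hρ : Loc p N ρ) (V : ι → AddSubgroup (ι → R)) (S : Finset ι) :
    Pr V (Ext S) * pip p (Fintype.card ι - #S) ≤ pip p (Fintype.card ι) := by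
  have h := Pr_Ext_mono hρ V ∅ S (Finset.disjoint_empty_left _)
  rw [Finset.union_empty] at h
  refine h.trans ?_
  have h1 := Pr_le_one V (Ext ∅)
  have h2 := pip_pos p (Fintype.card ι)
  simp only [Finset.card_empty, Nat.sub_zero]
  nlinarith

/-- (ii): the bad events are unlikely. -/
lemma Pr_Bad_le (hρ : Loc p N ρ) (V : ι → AddSubgroup (ι → R)) (S : Finset ι) {c : ι} (hc : c ∉ S)
    {J : ℕ} (hJ : Fintype.card ι - #S = J + 1) :
    Pr V (Bad ρ V S c) * (((p : ℝ) - 1) * ((p : ℝ) ^ (J + 1))⁻¹ * pip p J)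
      ≤ pip p (Fintype.card ι) - Pr V (Ext univ) := by
  have h1 := step hρ V hc
  have h2 := Pr_Ext_ge hρ V (insert c S)
  rw [Finset.card_insert_of_notMem hc] at h2
  have h3 := Pr_Ext_le hρ V S
  have hJ' : Fintype.card ι - (#S + 1) = J := by omega
  rw [hJ'] at h2
  rw [hJ] at h1 h3
  rw [pip_succ] at h3
  have h5 := pip_pos p J
  nlinarith

end step

end Pool.Agent.X143.CL
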