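import Mathlib
import Pool.Agent.X143.CL.Step

set_option linter.unusedSectionVars false

namespace Pool.Agent.X143.CL

open Finset Matrix
open scoped Classical

lemma nak {M' : Type*} [AddCommGroup M'] (A : AddSubgroup M') (p N : ℕ)
    (hN : ∀ m : M', (p ^ N) • m = 0) (h : ∀ m : M', ∃ a ∈ A, ∃ m' : M', m = a + p • m') (m : M') :
    m ∈ A := by
  have key : ∀ k : ℕ, ∀ m : M', ∃ a ∈ A, ∃ m' : M', m = a + (p ^ k) • m' := by
    intro k
    induction k with
    | zero =>
      intro m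
      exact ⟨0, A.zero_mem, m, by simp⟩
    | succ k ih =>
      intro m
      obtain ⟨a, ha, m', hm'⟩ := ih m
      obtain ⟨a', ha', m'', hm''⟩ := h m'
      refine ⟨a + (p ^ k) • a', A.add_mem ha (A.nsmul_mem ha' _), m'', ?_⟩
      rw [hm', hm'', pow_succ, mul_smul, smul_add, add_assoc]
  obtain ⟨a, ha, m', hm'⟩ := key N m
  rw [hm', hN, add_zero]
  exact ha

/-- pushforward of the uniform law on a subgroup under a homomorphism which is onto. -/
lemma push_uw {M M' : Type*} [AddCommGroup M] [Fintype M] [AddCommGroup M'] [Fintype M']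
    (V : AddSubgroup M) (L : M →+ M') (hL : ∀ h, ∃ v ∈ V, L v = h) (h : M') :
    ∑ v ∈ univ.filter (fun v => L v = h), uw V v = (Fintype.card M' : ℝ)⁻¹ := by
  have h1 : ∀ h : M', ∑ v ∈ univ.filter (fun v => L v = h), uw V v
      = ∑ v ∈ univ.filter (fun v => L v = 0), uw V v := by
    intro h
    obtain ⟨w, hw, rfl⟩ := hL h
    refine Finset.sum_nbij' (fun v => v - w) (fun v => v + w) ?_ ?_ ?_ ?_ ?_
    · intro v hv
      rw [mem_filter] at hv ⊢
      refine ⟨mem_univ _, ?_⟩
      rw [map_sub, hv.2, sub_self]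
    · intro v hv
      rw [mem_filter] at hv ⊢
      refine ⟨mem_univ _, ?_⟩
      rw [map_add, hv.2, zero_add]
    · intro v _
      simp
    · intro v _
      simp
    · intro v _
      unfold uw
      have : v ∈ V ↔ v - w ∈ V := by
        constructor
        · intro hv
          exact V.sub_mem hv hw
        · intro hv
          have := V.add_mem hv hw
          rwa [sub_add_cancel] at this
      simp only [this]
  have h2 : ∑ h : M', ∑ v ∈ univ.filter (fun v => L v = h), uw V v = 1 := by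
    rw [Finset.sum_fiberwise (univ : Finset M) L (fun v => uw V v)]
    exact sum_uw V
  rw [Finset.sum_congr rfl (fun h _ => h1 h), Finset.sum_const, Finset.card_univ,
    nsmul_eq_mul] at h2
  rw [h1 h]
  exact eq_inv_of_mul_eq_one_right h2

section block

variable {p N : ℕ} [Fact p.Prime] {R : Type*} [CommRing R] [Fintype R] [DecidableEq R]
  {ρ : R →+* ZMod p} {ι : Type*} [Fintype ι] [DecidableEq ι]

/-- the cokernel of the rows `x` is isomorphic to `G` -/
def CokIso {R : Type*} [CommRing R] {κ : Type*} (G : Type*) [AddCommGroup G]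
    (x : κ → κ → R) : Prop :=
  Nonempty (((κ → R) ⧸ Submodule.span R (Set.range x)) ≃+ G)

/-- the coordinates outside `S` with respect to the basis `y` -/
noncomputable def LL (S : Finset ι) (y : Matrix ι ι R) : (ι → R) →ₗ[R] ({i // ¬ i ∈ S} → R) where
  toFun v := fun i => (v ᵥ* y⁻¹) i
  map_add' a b := by
    funext i
    simp [Matrix.add_vecMul]
  map_smul' r a := by
    funext i
    simp [Matrix.smul_vecMul]

lemma LL_surj {S : Finset ι} {y : Matrix ι ι R} (hy : IsUnit y.det) :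
    Function.Surjective (LL S y) := by
  intro z
  refine ⟨(fun i => if h : ¬ i ∈ S then z ⟨i, h⟩ else 0) ᵥ* y, ?_⟩
  funext i
  change ((((fun i => if h : ¬ i ∈ S then z ⟨i, h⟩ else 0) ᵥ* y) ᵥ* y⁻¹) i) = z i
  rw [Matrix.vecMul_vecMul, Matrix.mul_nonsing_inv y hy, Matrix.vecMul_one, dif_pos i.2]

lemma span_eq_comap {S : Finset ι} {x : ι → ι → R} {y : Matrix ι ι R}
    (hyx : ∀ c ∈ S, y c = x c) (hy : IsUnit y.det) :
    Submodule.span R (Set.range x) =
      (Submodule.span R (Set.range (fun c : {i // ¬ i ∈ S} => LL S y (x c)))).comap (LL S y) := by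
  apply le_antisymm
  · rw [Submodule.span_le]
    rintro _ ⟨c, rfl⟩
    rw [SetLike.mem_coe, Submodule.mem_comap]
    by_cases hc : c ∈ S
    · have : LL S y (x c) = 0 := by
        funext i
        change (x c ᵥ* y⁻¹) i = 0
        rw [← hyx c hc, row_vecMul_inv hy, Pi.single_apply, if_neg]
        rintro h
        exact i.2 (h ▸ hc)
      rw [this]
      exact Submodule.zero_mem _
    · exact Submodule.subset_span ⟨⟨c, hc⟩, rfl⟩
  · intro v hv
    rw [Submodule.mem_comap] at hv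
    have h1 : Set.range (fun c : {i // ¬ i ∈ S} => LL S y (x c))
        = LL S y '' (Set.range (fun c : {i // ¬ i ∈ S} => x c)) := by
      rw [← Set.range_comp]
      rfl
    rw [h1, ← Submodule.map_span, Submodule.mem_map] at hv
    obtain ⟨w, hw, hwv⟩ := hv
    have hw' : w ∈ Submodule.span R (Set.range x) := by
      refine Submodule.span_mono ?_ hw
      rintro _ ⟨c, rfl⟩
      exact ⟨c, rfl⟩
    have h2 : LL S y (v - w) = 0 := by rw [map_sub, hwv, sub_self]
    have h3 : v - w ∈ Submodule.span R (Set.range x) := by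
      have h4 : v - w = ∑ c, ((v - w) ᵥ* y⁻¹) c • y c := by
        rw [← vecMul_eq_sum, Matrix.vecMul_vecMul, Matrix.nonsing_inv_mul y hy, Matrix.vecMul_one]
      rw [h4]
      refine Submodule.sum_mem _ fun c _ => ?_
      by_cases hc : c ∈ S
      · rw [hyx c hc]
        exact Submodule.smul_mem _ _ (Submodule.subset_span ⟨c, rfl⟩)
      · have h5 := congrFun h2 ⟨c, hc⟩
        change ((v - w) ᵥ* y⁻¹) c = 0 at h5
        rw [h5, zero_smul]
        exact Submodule.zero_mem _
    have := Submodule.add_mem _ h3 hw'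
    rwa [sub_add_cancel] at this

lemma cok_block {S : Finset ι} {x : ι → ι → R} {y : Matrix ι ι R}
    (hyx : ∀ c ∈ S, y c = x c) (hy : IsUnit y.det) (G : Type*) [AddCommGroup G] :
    CokIso G x ↔ CokIso G (fun c : {i // ¬ i ∈ S} => LL S y (x c)) := by
  set NH := Submodule.span R (Set.range (fun c : {i // ¬ i ∈ S} => LL S y (x c))) with hNH
  have h1 : Submodule.span R (Set.range x) = LinearMap.ker (NH.mkQ ∘ₗ LL S y) := by
    rw [LinearMap.ker_comp, Submodule.ker_mkQ, span_eq_comap hyx hy]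
  have hsurj : Function.Surjective (NH.mkQ ∘ₗ LL S y) :=
    (Submodule.mkQ_surjective NH).comp (LL_surj hy)
  have e : ((ι → R) ⧸ Submodule.span R (Set.range x)) ≃ₗ[R] (({i // ¬ i ∈ S} → R) ⧸ NH) :=
    (Submodule.quotEquivOfEq _ _ h1).trans (LinearMap.quotKerEquivOfSurjective _ hsurj)
  constructor
  · rintro ⟨f⟩
    exact ⟨e.toAddEquiv.symm.trans f⟩
  · rintro ⟨f⟩
    exact ⟨e.toAddEquiv.trans f⟩

/-- the probability that a uniform square matrix has cokernel `G` -/
noncomputable def muU (R : Type*) [CommRing R] [Fintype R] (κ : Type*) [Fintype κ]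
    [DecidableEq κ] (G : Type*) [AddCommGroup G] : ℝ :=
  Ex (fun (_ : κ) (_ : κ → R) => (Fintype.card (κ → R) : ℝ)⁻¹)
    (fun x => if CokIso G x then 1 else 0)

/-- the good event for the complement of `S` -/
def Good (ρ : R →+* ZMod p) (V : ι → AddSubgroup (ι → R)) (S : Finset ι)
    (x : ι → ι → R) : Prop :=
  Ext S x ∧ ∀ c, c ∉ S → V c ⊔ (Usp ρ S x).toAddSubgroup = ⊤

lemma Good_congr {V : ι → AddSubgroup (ι → R)} {S : Finset ι} {x x' : ι → ι → R}
    (h : ∀ c ∈ S, x c = x' c) : Good ρ V S x ↔ Good ρ V S x' := by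
  unfold Good
  rw [Ext_congr h, Usp_congr h]

lemma Good_surj (hρ : Loc p N ρ) {V : ι → AddSubgroup (ι → R)} {S : Finset ι} {x : ι → ι → R}
    {y : Matrix ι ι R} (hyx : ∀ c ∈ S, y c = x c) (hy : IsUnit y.det) {c : ι}
    (h : V c ⊔ (Usp ρ S x).toAddSubgroup = ⊤) (z : {i // ¬ i ∈ S} → R) :
    ∃ v ∈ V c, LL S y v = z := by
  have h1 : z ∈ (V c).map (LL S y).toAddMonoidHom := by
    refine nak _ p N ?_ ?_ z
    · intro m
      funext i
      rw [Pi.smul_apply, Pi.zero_apply, nsmul_eq_mul, Nat.cast_pow, hρ.nil, zero_mul]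
    · intro m
      obtain ⟨v, rfl⟩ := LL_surj (S := S) hy m
      have hv : v ∈ V c ⊔ (Usp ρ S x).toAddSubgroup := by
        rw [h]
        trivial
      rw [AddSubgroup.mem_sup] at hv
      obtain ⟨a, ha, b, hb, rfl⟩ := hv
      rw [← ker_theta hyx hy, AddMonoidHom.mem_ker] at hb
      have h2 : ∀ i : {i // ¬ i ∈ S}, ∃ s, (b ᵥ* y⁻¹) i = (p : R) * s := fun i =>
        hρ.ker _ (congrFun hb i)
      choose s hs using h2
      refine ⟨LL S y a, ⟨a, ha, rfl⟩, s, ?_⟩
      rw [map_add]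
      congr 1
      funext i
      rw [Pi.smul_apply, nsmul_eq_mul, ← hs i]
      rfl
  obtain ⟨v, hv, hvz⟩ := h1
  exact ⟨v, hv, hvz⟩

/-- conditionally on a good family of vectors indexed by `S`, the cokernel has the law of the
cokernel of a uniform matrix -/
lemma cond_law (hρ : Loc p N ρ) (V : ι → AddSubgroup (ι → R)) (S : Finset ι)
    (G : Type*) [AddCommGroup G] :
    Pr V (fun x => Good ρ V S x ∧ CokIso G x)
      = Pr V (Good ρ V S) * muU R {i // ¬ i ∈ S} G := by
  unfold Pr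
  rw [Ex_split (fun c => c ∈ S), Ex_split (fun c => c ∈ S), Finset.sum_mul]
  refine Finset.sum_congr rfl fun Y _ => ?_
  rw [mul_assoc]
  congr 1
  have hcongr : ∀ Z Z' : {c // ¬ c ∈ S} → (ι → R), ∀ c ∈ S,
      glue (fun c => c ∈ S) Y Z c = glue (fun c => c ∈ S) Y Z' c := by
    intro Z Z' c hc
    rw [glue_pos (fun c => c ∈ S) Y Z hc, glue_pos (fun c => c ∈ S) Y Z' hc]
  have hG : ∀ Z, Good ρ V S (glue (fun c => c ∈ S) Y Z)
      ↔ Good ρ V S (glue (fun c => c ∈ S) Y 0) := fun Z => Good_congr (hcongr Z 0)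
  simp_rw [hG]
  by_cases hgood : Good ρ V S (glue (fun c => c ∈ S) Y 0)
  · simp only [hgood, true_and, if_true]
    rw [Ex_const (u := fun c : {c // ¬ c ∈ S} => uw (V c)) (fun c => sum_uw (V c)) 1, one_mul]
    obtain ⟨⟨y, hyx, hy⟩, hV⟩ := hgood
    have h1 : ∀ Z : {c // ¬ c ∈ S} → (ι → R), CokIso G (glue (fun c => c ∈ S) Y Z)
        ↔ CokIso G (fun c : {i // ¬ i ∈ S} => LL S y (Z c)) := by
      intro Z
      have hyx' : ∀ c ∈ S, y c = glue (fun c => c ∈ S) Y Z c := fun c hc =>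
        (hyx c hc).trans (hcongr 0 Z c hc)
      rw [cok_block hyx' hy G]
      have : (fun c : {i // ¬ i ∈ S} => LL S y (glue (fun c => c ∈ S) Y Z c))
          = fun c : {i // ¬ i ∈ S} => LL S y (Z c) := by
        funext c
        rw [glue_neg (fun c => c ∈ S) Y Z c.2]
      rw [this]
    simp_rw [h1]
    rw [Ex_push (u := fun c : {c // ¬ c ∈ S} => uw (V c)) (LL S y)
      (fun H => if CokIso G H then (1 : ℝ) else 0)]
    unfold muU
    congr 1
    funext c h
    have h2 := push_uw (V c) (LL S y).toAddMonoidHom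
      (fun z => Good_surj hρ hyx hy (hV c c.2) z) h
    convert h2
    rfl
  · simp [hgood, Ex]

lemma Pr_not (V : ι → AddSubgroup (ι → R)) (Q : (ι → ι → R) → Prop) :
    Pr V (fun x => ¬ Q x) = 1 - Pr V Q := by
  unfold Pr
  rw [eq_sub_iff_add_eq, ← Ex_add]
  refine Eq.trans ?_ (Ex_const (u := fun c => uw (V c)) (fun c => sum_uw (V c)) 1)
  congr 1
  funext x
  by_cases h : Q x <;> simp [h]

lemma Pr_split (V : ι → AddSubgroup (ι → R)) (Q Q' : (ι → ι → R) → Prop) :
    Pr V Q = Pr V (fun x => Q' x ∧ Q x) + Pr V (fun x => ¬ Q' x ∧ Q x) := by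
  unfold Pr
  rw [← Ex_add]
  congr 1
  funext x
  by_cases h : Q x <;> by_cases h' : Q' x <;> simp [h, h']

/-- comparison of the law of the cokernel with the one of a uniform matrix -/
lemma compare (hρ : Loc p N ρ) (V : ι → AddSubgroup (ι → R)) (S : Finset ι)
    (G : Type*) [AddCommGroup G] :
    |Pr V (CokIso G) - muU R {i // ¬ i ∈ S} G| ≤ 1 - Pr V (Good ρ V S) := by
  have h1 := Pr_split V (CokIso G) (Good ρ V S)
  rw [cond_law hρ V S G] at h1
  have h2 : Pr V (fun x => ¬ Good ρ V S x ∧ CokIso G x) ≤ 1 - Pr V (Good ρ V S) := by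
    rw [← Pr_not]
    exact Pr_mono V fun x hx => hx.1
  have h3 := Pr_nonneg V (fun x => ¬ Good ρ V S x ∧ CokIso G x)
  have h4 : 0 ≤ muU R {i // ¬ i ∈ S} G := by
    unfold muU
    refine Ex_nonneg (fun _ _ => by positivity) fun x => ?_
    split_ifs <;> norm_num
  have h5 : muU R {i // ¬ i ∈ S} G ≤ 1 := by
    unfold muU
    have hs : ∀ c : {i // ¬ i ∈ S}, ∑ v : ({i // ¬ i ∈ S} → R),
        (Fintype.card ({i // ¬ i ∈ S} → R) : ℝ)⁻¹ = 1 := by
      intro c
      rw [Finset.sum_const, Finset.card_univ, nsmul_eq_mul]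
      have : (Fintype.card ({i // ¬ i ∈ S} → R) : ℝ) ≠ 0 := by
        exact_mod_cast Fintype.card_ne_zero
      exact mul_inv_cancel₀ this
    refine le_trans ?_ (Ex_const (u := fun (_ : {i // ¬ i ∈ S}) (_ : {i // ¬ i ∈ S} → R) =>
      (Fintype.card ({i // ¬ i ∈ S} → R) : ℝ)⁻¹) hs 1).le
    refine Ex_mono (fun _ _ => by positivity) fun x => ?_
    split_ifs <;> norm_num
  have h6 := Pr_le_one V (Good ρ V S)
  have h7 := Pr_nonneg V (Good ρ V S)
  rw [abs_le]
  constructor <;> nlinarith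

/-- union bound for the good event -/
lemma Good_ge (V : ι → AddSubgroup (ι → R)) (S : Finset ι) :
    Pr V (Ext S) - ∑ c ∈ Sᶜ, Pr V (Bad ρ V S c) ≤ Pr V (Good ρ V S) := by
  unfold Pr
  rw [sub_le_iff_le_add, ← Ex_sum, ← Ex_add]
  refine Ex_mono (fun c v => uw_nonneg _ _) fun x => ?_
  have h0 : ∀ c, (0 : ℝ) ≤ if Bad ρ V S c x then 1 else 0 := fun c => by
    split_ifs <;> norm_num
  by_cases hE : Ext S x
  · by_cases hg : Good ρ V S x
    · simp only [hE, hg, if_true]
      have := Finset.sum_nonneg fun c (_ : c ∈ Sᶜ) => h0 c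
      linarith
    · have h1 : ∃ c, c ∉ S ∧ V c ⊔ (Usp ρ S x).toAddSubgroup ≠ ⊤ := by
        by_contra hcon
        push Not at hcon
        exact hg ⟨hE, hcon⟩
      obtain ⟨c, hc, hb⟩ := h1
      have h2 : (1 : ℝ) = if Bad ρ V S c x then 1 else 0 := by
        rw [if_pos]
        exact ⟨hE, hb⟩
      simp only [hE, hg, if_true, if_false, zero_add]
      exact h2.le.trans (Finset.single_le_sum (f := fun c => if Bad ρ V S c x then (1 : ℝ) else 0)
        (fun c _ => h0 c) (Finset.mem_compl.2 hc))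
  · simp only [hE, if_false]
    have := Finset.sum_nonneg fun c (_ : c ∈ Sᶜ) => h0 c
    have h3 : (0 : ℝ) ≤ if Good ρ V S x then 1 else 0 := by split_ifs <;> norm_num
    linarith

/-- quantitative version -/
lemma main_bound (hρ : Loc p N ρ) (V : ι → AddSubgroup (ι → R)) (S : Finset ι)
    (G : Type*) [AddCommGroup G] {J : ℕ} (hJ : Fintype.card ι - #S = J + 1) :
    |Pr V (CokIso G) - muU R {i // ¬ i ∈ S} G| ≤ 1 - Pr V (Ext univ) / pip p (J + 1)
      + (J + 1) * ((pip p (Fintype.card ι) - Pr V (Ext univ)) /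
        (((p : ℝ) - 1) * ((p : ℝ) ^ (J + 1))⁻¹ * pip p J)) := by
  refine (compare hρ V S G).trans ?_
  have h1 := Good_ge (ρ := ρ) V S
  have h2 := Pr_Ext_ge hρ V S
  rw [hJ] at h2
  have h3 : Pr V (Ext univ) / pip p (J + 1) ≤ Pr V (Ext S) := by
    rw [div_le_iff₀ (pip_pos p _)]
    exact h2
  have hp1 : (1 : ℝ) < p := by exact_mod_cast (Fact.out : p.Prime).one_lt
  have hpos : 0 < ((p : ℝ) - 1) * ((p : ℝ) ^ (J + 1))⁻¹ * pip p J := by
    have := pip_pos p J
    have : (0 : ℝ) < (p : ℝ) - 1 := by linarith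
    positivity
  have h4 : ∑ c ∈ Sᶜ, Pr V (Bad ρ V S c) ≤ (J + 1) *
      ((pip p (Fintype.card ι) - Pr V (Ext univ)) /
        (((p : ℝ) - 1) * ((p : ℝ) ^ (J + 1))⁻¹ * pip p J)) := by
    have h5 : #Sᶜ = J + 1 := by
      rw [Finset.card_compl, hJ]
    have h6 : ∀ c ∈ Sᶜ, Pr V (Bad ρ V S c) ≤
        (pip p (Fintype.card ι) - Pr V (Ext univ)) /
        (((p : ℝ) - 1) * ((p : ℝ) ^ (J + 1))⁻¹ * pip p J) := by
      intro c hc
      rw [le_div_iff₀ hpos]
      exact Pr_Bad_le hρ V S (Finset.mem_compl.1 hc) hJ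
    refine (Finset.sum_le_sum h6).trans ?_
    rw [Finset.sum_const, h5, nsmul_eq_mul]
    push_cast
    exact le_rfl
  linarith

end block

end Pool.Agent.X143.CL
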