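import Mathlib
import Pool.Agent.X143.CL.Block

set_option linter.unusedSectionVars false

namespace Pool.Agent.X143.CL

open Finset Matrix
open scoped Classical

/-- the probability that `κ` independent uniform elements generate `K` -/
noncomputable def gp (κ : Type*) [Fintype κ] (K : Type*) [AddCommGroup K] [Fintype K] : ℝ :=
  Ex (fun (_ : κ) (_ : K) => (Fintype.card K : ℝ)⁻¹)
    (fun x => if AddSubgroup.closure (Set.range x) = ⊤ then 1 else 0)

lemma Ex_unif_card {κ K : Type*} [Fintype κ] [Fintype K] (Q : (κ → K) → Prop) :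
    Ex (fun (_ : κ) (_ : K) => (Fintype.card K : ℝ)⁻¹) (fun x => if Q x then 1 else 0)
      = (Nat.card {x // Q x} : ℝ) / (Fintype.card K : ℝ) ^ (Fintype.card κ) := by
  unfold Ex
  simp only [Finset.prod_const, Finset.card_univ]
  rw [← Finset.mul_sum, Finset.sum_boole, Nat.card_eq_fintype_card, Fintype.card_subtype,
    inv_pow, div_eq_inv_mul]

lemma gp_eq {κ K : Type*} [Fintype κ] [AddCommGroup K] [Fintype K] :
    gp κ K = (Nat.card {x : κ → K // AddSubgroup.closure (Set.range x) = ⊤} : ℝ)
      / (Fintype.card K : ℝ) ^ (Fintype.card κ) := Ex_unif_card _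

section mulp

variable {K : Type*} [AddCommGroup K] [Fintype K]

/-- multiples of `p` -/
def mulp (p : ℕ) (K : Type*) [AddCommGroup K] : AddSubgroup K := (nsmulAddMonoidHom (α := K) p).range

lemma index_mulp (p : ℕ) : (mulp p K).index = Nat.card {k : K // p • k = 0} := by
  have h1 := AddSubgroup.card_mul_index (mulp p K)
  have h2 := AddSubgroup.card_mul_index (nsmulAddMonoidHom (α := K) p).ker
  rw [AddSubgroup.index_ker] at h2
  have h3 : 0 < Nat.card (mulp p K) := Nat.card_pos
  have h4 : Nat.card (nsmulAddMonoidHom (α := K) p).ker = Nat.card {k : K // p • k = 0} := by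
    apply Nat.card_congr
    exact Equiv.subtypeEquivRight fun k => by rw [AddMonoidHom.mem_ker]; rfl
  rw [← h4]
  apply Nat.eq_of_mul_eq_mul_left h3
  rw [h1, ← h2, mul_comm]
  rfl

/-- `∏_{i < J} (p^J - p^i) = p^{J^2} π_J` -/
lemma prod_eq_pip (p J : ℕ) [hp : Fact p.Prime] :
    ((∏ i : Fin J, (p ^ J - p ^ (i : ℕ)) : ℕ) : ℝ) / ((p : ℝ) ^ J) ^ J = pip p J := by
  have hp1 : (1 : ℝ) < p := by exact_mod_cast hp.out.one_lt
  have hp0 : (p : ℝ) ≠ 0 := by linarith
  rw [Finset.prod_fin_eq_prod_range]
  unfold pip
  conv_rhs => rw [← Finset.prod_range_reflect]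
  have h1 : ((p : ℝ) ^ J) ^ J = ∏ i ∈ range J, (p : ℝ) ^ J := by
    rw [Finset.prod_const, Finset.card_range]
  rw [h1, Nat.cast_prod, ← Finset.prod_div_distrib]
  refine Finset.prod_congr rfl fun i hi => ?_
  rw [Finset.mem_range] at hi
  rw [dif_pos hi, Nat.cast_sub (Nat.pow_le_pow_right hp.out.pos hi.le)]
  push_cast
  have h2 : J - 1 - i + 1 = J - i := by omega
  have h3 : (p : ℝ) ^ J = (p : ℝ) ^ (J - i) * (p : ℝ) ^ i := by
    rw [← pow_add]
    congr 1
    omega
  rw [h2, h3]
  field_simp

lemma gen_prob {p N J : ℕ} [hp : Fact p.Prime] {κ : Type*} [Fintype κ]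
    (hN : ∀ k : K, (p ^ N) • k = 0) (htor : Nat.card {k : K // p • k = 0} = p ^ J)
    (hκ : Fintype.card κ = J) : gp κ K = pip p J := by
  have hmem : ∀ x : K, p • x ∈ mulp p K := fun x => ⟨x, rfl⟩
  have : Module (ZMod p) (K ⧸ mulp p K) := QuotientAddGroup.zmodModule hmem
  let _ : Fintype (K ⧸ mulp p K) := Fintype.ofFinite _
  have hcard : Fintype.card (K ⧸ mulp p K) = p ^ J := by
    rw [← htor, ← index_mulp, AddSubgroup.index_eq_card, Nat.card_eq_fintype_card]
  have hrank : Module.finrank (ZMod p) (K ⧸ mulp p K) = J := by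
    have h1 := Module.card_eq_pow_finrank (K := ZMod p) (V := K ⧸ mulp p K)
    rw [hcard, ZMod.card] at h1
    exact (Nat.pow_right_injective hp.out.two_le h1).symm
  set π : K →+ K ⧸ mulp p K := QuotientAddGroup.mk' (mulp p K) with hπ
  have hπs : Function.Surjective π := QuotientAddGroup.mk'_surjective _
  have key : ∀ x : κ → K, AddSubgroup.closure (Set.range x) = ⊤ ↔
      LinearIndependent (ZMod p) (fun c => π (x c)) := by
    intro x
    have hr : Set.range (fun c => π (x c)) = π '' Set.range x := by
      rw [← Set.range_comp]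
      rfl
    constructor
    · intro h
      have h1 : AddSubgroup.closure (Set.range (fun c => π (x c))) = ⊤ := by
        rw [hr, ← AddMonoidHom.map_closure, h, ← AddMonoidHom.range_eq_map,
          AddMonoidHom.range_eq_top.2 hπs]
      apply linearIndependent_of_top_le_span_of_card_eq_finrank _ (by rw [hκ, hrank])
      intro z _
      have h2 : z ∈ AddSubgroup.closure (Set.range (fun c => π (x c))) := by
        rw [h1]
        trivial
      have h3 : AddSubgroup.closure (Set.range (fun c => π (x c)))
          ≤ (Submodule.span (ZMod p) (Set.range (fun c => π (x c)))).toAddSubgroup := by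
        rw [AddSubgroup.closure_le]
        exact Submodule.subset_span
      exact h3 h2
    · intro h
      have h1 : Submodule.span (ZMod p) (Set.range (fun c => π (x c)))
          = (⊤ : Submodule (ZMod p) (K ⧸ mulp p K)) :=
        LinearIndependent.span_eq_top_of_card_eq_finrank' h (by rw [hκ, hrank])
      have h2 : ∀ z, z ∈ AddSubgroup.closure (Set.range (fun c => π (x c))) := by
        intro z
        have h3 : Submodule.span (ZMod p) (Set.range (fun c => π (x c)))
            ≤ AddSubgroup.toZModSubmodule p (AddSubgroup.closure (Set.range (fun c => π (x c)))) := by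
          rw [Submodule.span_le]
          exact AddSubgroup.subset_closure
        have h4 : z ∈ Submodule.span (ZMod p) (Set.range (fun c => π (x c))) := by
          rw [h1]
          trivial
        exact h3 h4
      rw [eq_top_iff]
      intro m _
      refine nak _ p N hN ?_ m
      intro m
      have h3 := h2 (π m)
      rw [hr, ← AddMonoidHom.map_closure, AddSubgroup.mem_map] at h3
      obtain ⟨a, ha, ham⟩ := h3
      have h4 : -a + m ∈ mulp p K := by
        rw [← QuotientAddGroup.eq]
        exact ham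
      obtain ⟨m', hm'⟩ := h4
      refine ⟨a, ha, m', ?_⟩
      have h5 : p • m' = -a + m := hm'
      rw [h5]
      abel
  unfold gp
  simp_rw [key]
  have h1 : Ex (fun (_ : κ) (_ : K) => (Fintype.card K : ℝ)⁻¹)
      (fun x => if LinearIndependent (ZMod p) (fun c => π (x c)) then (1 : ℝ) else 0)
      = Ex (fun (_ : κ) (_ : K ⧸ mulp p K) => (Fintype.card (K ⧸ mulp p K) : ℝ)⁻¹)
      (fun x => if LinearIndependent (ZMod p) x then (1 : ℝ) else 0) := by
    rw [Ex_push (u := fun (_ : κ) (_ : K) => (Fintype.card K : ℝ)⁻¹) π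
      (fun x => if LinearIndependent (ZMod p) x then (1 : ℝ) else 0)]
    congr 1
    funext c h
    have h2 := push_uw (⊤ : AddSubgroup K) π (fun z => by
      obtain ⟨v, hv⟩ := hπs z
      exact ⟨v, trivial, hv⟩) h
    have h3 : ∀ v : K, (Fintype.card K : ℝ)⁻¹ = uw (⊤ : AddSubgroup K) v := by
      intro v
      unfold uw
      rw [if_pos (AddSubgroup.mem_top v), AddSubgroup.card_top, Nat.card_eq_fintype_card]
    rw [← h2]
    refine Finset.sum_congr ?_ fun v _ => h3 v
    congr!
  rw [h1, Ex_unif_card, hκ, hcard]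
  have h2 : Nat.card {x : κ → K ⧸ mulp p K // LinearIndependent (ZMod p) x}
      = ∏ i : Fin J, (p ^ J - p ^ (i : ℕ)) := by
    have e : Fin J ≃ κ := (Fintype.equivFinOfCardEq hκ).symm
    have h3 := card_linearIndependent (K := ZMod p) (V := K ⧸ mulp p K) (k := J) (by rw [hrank])
    rw [hrank, ZMod.card] at h3
    rw [← h3]
    apply Nat.card_congr
    refine Equiv.subtypeEquiv (Equiv.arrowCongr e.symm (Equiv.refl _)) ?_
    intro x
    change LinearIndependent (ZMod p) x ↔ LinearIndependent (ZMod p) (x ∘ e)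
    exact (linearIndependent_equiv e).symm
  rw [h2]
  have h3 := prod_eq_pip p J
  push_cast at h3 ⊢
  exact h3

end mulp

end Pool.Agent.X143.CL
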