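import Mathlib
import Pool.Agent.X143.CL.Gen

set_option linter.unusedSectionVars false

namespace Pool.Agent.X143.CL

open Finset Matrix
open scoped Classical

section tors

variable {p e : ℕ} [hp : Fact p.Prime]

lemma tors_exists (r : ZMod (p ^ (e + 1))) (hr : p • r = 0) :
    ∃ i : ℕ, i < p ∧ r = ((p ^ e * i : ℕ) : ZMod (p ^ (e + 1))) := by
  have : NeZero (p ^ (e + 1)) := ⟨pow_ne_zero _ hp.out.ne_zero⟩
  have h1 : ((p * r.val : ℕ) : ZMod (p ^ (e + 1))) = 0 := by
    push_cast
    rw [ZMod.natCast_zmod_val, ← nsmul_eq_mul]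
    exact hr
  rw [ZMod.natCast_eq_zero_iff] at h1
  have h3 := ZMod.val_lt r
  have h4 : r = ((r.val : ℕ) : ZMod (p ^ (e + 1))) := (ZMod.natCast_zmod_val r).symm
  obtain ⟨v, hv⟩ : ∃ v, v = r.val := ⟨_, rfl⟩
  rw [← hv] at h1 h3 h4
  rw [pow_succ, mul_comm (p ^ e)] at h1
  have h2 : p ^ e ∣ v := Nat.dvd_of_mul_dvd_mul_left hp.out.pos h1
  obtain ⟨i, hi⟩ := h2
  refine ⟨i, ?_, ?_⟩
  · rw [hi, pow_succ] at h3
    exact Nat.lt_of_mul_lt_mul_left h3
  · rw [← hi]
    exact h4

lemma tors_card : Nat.card {r : ZMod (p ^ (e + 1)) // p • r = 0} = p := by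
  have : NeZero (p ^ (e + 1)) := ⟨pow_ne_zero _ hp.out.ne_zero⟩
  have h0 : ∀ i : Fin p, p • ((p ^ e * (i : ℕ) : ℕ) : ZMod (p ^ (e + 1))) = 0 := by
    intro i
    rw [nsmul_eq_mul, ← Nat.cast_mul, ZMod.natCast_eq_zero_iff]
    exact ⟨i, by ring⟩
  rw [← Nat.card_eq_of_bijective (f := fun i : Fin p =>
    (⟨((p ^ e * (i : ℕ) : ℕ) : ZMod (p ^ (e + 1))), h0 i⟩ : {r : ZMod (p ^ (e + 1)) // p • r = 0})),
    Nat.card_fin]
  constructor
  · intro i j hij
    have h1 := congrArg Subtype.val hij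
    simp only at h1
    have hlt : ∀ i : Fin p, p ^ e * (i : ℕ) < p ^ (e + 1) := fun i => by
      rw [pow_succ]
      exact Nat.mul_lt_mul_of_pos_left i.2 (pow_pos hp.out.pos _)
    have h2 := congrArg ZMod.val h1
    rw [ZMod.val_natCast_of_lt (hlt i), ZMod.val_natCast_of_lt (hlt j)] at h2
    exact Fin.ext (Nat.eq_of_mul_eq_mul_left (pow_pos hp.out.pos _) h2)
  · rintro ⟨r, hr⟩
    obtain ⟨i, hi, rfl⟩ := tors_exists r hr
    exact ⟨⟨i, hi⟩, rfl⟩

lemma tors_vec {κ : Type*} [Fintype κ] :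
    Nat.card {v : κ → ZMod (p ^ (e + 1)) // p • v = 0} = p ^ (Fintype.card κ) := by
  have h1 : Nat.card {v : κ → ZMod (p ^ (e + 1)) // p • v = 0}
      = Nat.card (κ → {r : ZMod (p ^ (e + 1)) // p • r = 0}) := by
    apply Nat.card_congr
    refine Equiv.trans (Equiv.subtypeEquivRight fun v => ?_)
      (Equiv.subtypePiEquivPi (p := fun (_ : κ) (r : ZMod (p ^ (e + 1))) => p • r = 0))
    rw [funext_iff]
    rfl
  rw [h1, Nat.card_fun, tors_card, Nat.card_eq_fintype_card]

end tors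

section count

variable {p e : ℕ} [hp : Fact p.Prime] {κ : Type*} [Fintype κ]
  {G : Type*} [AddCommGroup G] [Finite G] [Module (ZMod (p ^ (e + 1))) G]

lemma ker_tors (hG : ∀ g : G, p ^ e • g = 0) (f : (κ → ZMod (p ^ (e + 1))) →ₗ[ZMod (p ^ (e + 1))] G) :
    Nat.card {k : LinearMap.ker f // p • k = 0} = p ^ (Fintype.card κ) := by
  rw [← tors_vec (p := p) (e := e) (κ := κ)]
  apply Nat.card_congr
  refine Equiv.ofBijective (fun k => ⟨k.1.1, ?_⟩) ⟨?_, ?_⟩
  · have h1 : (p • k.1 : LinearMap.ker f) = 0 := k.2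
    have h2 := congrArg Subtype.val h1
    exact h2
  · intro k k' h
    have h1 := congrArg Subtype.val h
    exact Subtype.ext (Subtype.ext h1)
  · rintro ⟨v, hv⟩
    have h1 : ∀ i, ∃ j : ℕ, j < p ∧ v i = ((p ^ e * j : ℕ) : ZMod (p ^ (e + 1))) := fun i =>
      tors_exists (v i) (congrFun hv i)
    choose j hj hvj using h1
    have h2 : v = p ^ e • (fun i => (j i : ZMod (p ^ (e + 1)))) := by
      funext i
      rw [hvj i, Pi.smul_apply, nsmul_eq_mul]
      push_cast
      rfl
    have h3 : v ∈ LinearMap.ker f := by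
      rw [LinearMap.mem_ker, h2, map_nsmul, hG]
    refine ⟨⟨⟨v, h3⟩, ?_⟩, rfl⟩
    apply Subtype.ext
    exact hv

lemma span_top_iff {n : ℕ} {M : Type*} [AddCommGroup M] [Module (ZMod n) M] (s : Set M) :
    AddSubgroup.closure s = ⊤ ↔ Submodule.span (ZMod n) s = ⊤ := by
  have h : Submodule.span (ZMod n) s = AddSubgroup.toZModSubmodule n (AddSubgroup.closure s) := by
    apply le_antisymm
    · rw [Submodule.span_le]
      exact AddSubgroup.subset_closure
    · have h2 : AddSubgroup.closure s ≤ (Submodule.span (ZMod n) s).toAddSubgroup := by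
        rw [AddSubgroup.closure_le]
        exact Submodule.subset_span
      exact fun x hx => h2 hx
  rw [h]
  constructor
  · intro h1
    rw [h1]
    rfl
  · intro h1
    rw [eq_top_iff]
    intro x _
    have : x ∈ AddSubgroup.toZModSubmodule n (AddSubgroup.closure s) := by
      rw [h1]
      trivial
    exact this

lemma cnt1 (hG : ∀ g : G, p ^ e • g = 0) (f : (κ → ZMod (p ^ (e + 1))) →ₗ[ZMod (p ^ (e + 1))] G)
    (hf : Function.Surjective f) :
    (Nat.card {x : κ → κ → ZMod (p ^ (e + 1)) //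
      Submodule.span (ZMod (p ^ (e + 1))) (Set.range x) = LinearMap.ker f} : ℝ)
      = pip p (Fintype.card κ) * (((p : ℝ) ^ (e + 1)) ^ (Fintype.card κ) / Nat.card G)
        ^ (Fintype.card κ) := by
  have : NeZero (p ^ (e + 1)) := ⟨pow_ne_zero _ hp.out.ne_zero⟩
  have hN : ∀ k : LinearMap.ker f, p ^ (e + 1) • k = 0 := by
    intro k
    apply Subtype.ext
    funext i
    change p ^ (e + 1) • (k.1 i) = 0
    rw [nsmul_eq_mul, ZMod.natCast_self, zero_mul]
  have h1 := gen_prob (κ := κ) hN (ker_tors hG f) rfl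
  rw [gp_eq] at h1
  have hK0 : (0 : ℝ) < Fintype.card (LinearMap.ker f) := by exact_mod_cast Fintype.card_pos
  have hcardK : (Fintype.card (LinearMap.ker f) : ℝ)
      = ((p : ℝ) ^ (e + 1)) ^ (Fintype.card κ) / Nat.card G := by
    have h2 := AddSubgroup.card_mul_index f.toAddMonoidHom.ker
    rw [AddSubgroup.index_ker, AddMonoidHom.range_eq_top.2 hf, AddSubgroup.card_top, Nat.card_fun,
      Nat.card_zmod, Nat.card_eq_fintype_card (α := κ)] at h2
    have h3 : Nat.card f.toAddMonoidHom.ker = Fintype.card (LinearMap.ker f) := by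
      rw [← Nat.card_eq_fintype_card]
      rfl
    rw [h3] at h2
    have h4 : (0 : ℝ) < Nat.card G := by exact_mod_cast Nat.card_pos
    rw [eq_div_iff h4.ne']
    exact_mod_cast h2
  rw [← hcardK]
  rw [div_eq_iff (by positivity)] at h1
  rw [← h1]
  congr 1
  apply Nat.card_congr
  symm
  refine Equiv.ofBijective (fun x' => ⟨fun c => (x'.1 c : κ → ZMod (p ^ (e + 1))), ?_⟩) ⟨?_, ?_⟩
  · have h2 := (span_top_iff (n := p ^ (e + 1)) _).1 x'.2
    have h3 : Set.range (fun c => (x'.1 c : κ → ZMod (p ^ (e + 1))))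
        = (LinearMap.ker f).subtype '' Set.range x'.1 := by
      rw [← Set.range_comp]
      rfl
    rw [h3, ← Submodule.map_span, h2, Submodule.map_subtype_top]
  · intro x x' h
    apply Subtype.ext
    funext c
    apply Subtype.ext
    exact congrFun (congrArg Subtype.val h) c
  · rintro ⟨x, hx⟩
    have hmem : ∀ c, x c ∈ LinearMap.ker f := fun c => by
      rw [← hx]
      exact Submodule.subset_span ⟨c, rfl⟩
    refine ⟨⟨fun c => ⟨x c, hmem c⟩, ?_⟩, rfl⟩
    rw [span_top_iff (n := p ^ (e + 1))]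
    have h3 : Set.range x = (LinearMap.ker f).subtype ''
        Set.range (fun c => (⟨x c, hmem c⟩ : LinearMap.ker f)) := by
      rw [← Set.range_comp]
      rfl
    rw [h3, ← Submodule.map_span] at hx
    apply Submodule.map_injective_of_injective (LinearMap.ker f).injective_subtype
    rw [hx, Submodule.map_subtype_top]

lemma cnt2 : Nat.card {f : (κ → ZMod (p ^ (e + 1))) →ₗ[ZMod (p ^ (e + 1))] G //
      Function.Surjective f} = Nat.card {g : κ → G // AddSubgroup.closure (Set.range g) = ⊤} := by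
  apply Nat.card_congr
  symm
  refine Equiv.subtypeEquiv
    ((Pi.basisFun (ZMod (p ^ (e + 1))) κ).constr ℕ).toEquiv ?_
  intro g
  rw [span_top_iff (n := p ^ (e + 1)), ← LinearMap.range_eq_top]
  change _ ↔ LinearMap.range ((Pi.basisFun (ZMod (p ^ (e + 1))) κ).constr ℕ g) = ⊤
  rw [Module.Basis.constr_range]

lemma cnt3 (x : κ → κ → ZMod (p ^ (e + 1))) (hx : CokIso G x) :
    Nat.card {f : (κ → ZMod (p ^ (e + 1))) →ₗ[ZMod (p ^ (e + 1))] G //
      Function.Surjective f ∧ Submodule.span (ZMod (p ^ (e + 1))) (Set.range x) = LinearMap.ker f}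
      = Nat.card (G ≃+ G) := by
  obtain ⟨φ⟩ := hx
  set Nx := Submodule.span (ZMod (p ^ (e + 1))) (Set.range x) with hNx
  -- the basic surjection
  set f0 : (κ → ZMod (p ^ (e + 1))) →ₗ[ZMod (p ^ (e + 1))] G :=
    (φ.toAddMonoidHom.toZModLinearMap (p ^ (e + 1))) ∘ₗ Nx.mkQ with hf0
  have hf0s : Function.Surjective f0 := by
    rw [hf0]
    exact φ.surjective.comp (Submodule.mkQ_surjective Nx)
  have hf0k : LinearMap.ker f0 = Nx := by
    ext v
    rw [LinearMap.mem_ker, hf0]
    change φ (Nx.mkQ v) = 0 ↔ _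
    rw [map_eq_zero_iff φ φ.injective, Submodule.mkQ_apply, Submodule.Quotient.mk_eq_zero]
  apply Nat.card_congr
  symm
  refine Equiv.ofBijective (fun α => ⟨(α.toAddMonoidHom.toZModLinearMap (p ^ (e + 1))) ∘ₗ f0,
    ?_, ?_⟩) ⟨?_, ?_⟩
  · exact α.surjective.comp hf0s
  · ext v
    rw [LinearMap.mem_ker]
    change _ ↔ α (f0 v) = 0
    rw [map_eq_zero_iff α α.injective, ← LinearMap.mem_ker, hf0k]
  · intro α β h
    have h1 := congrArg Subtype.val h
    ext g
    obtain ⟨v, rfl⟩ := hf0s g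
    exact LinearMap.congr_fun h1 v
  · rintro ⟨f, hfs, hfk⟩
    have e1 : ((κ → ZMod (p ^ (e + 1))) ⧸ LinearMap.ker f0) ≃ₗ[ZMod (p ^ (e + 1))]
        ((κ → ZMod (p ^ (e + 1))) ⧸ LinearMap.ker f) :=
      Submodule.quotEquivOfEq _ _ (hf0k.trans hfk)
    let E0 := LinearMap.quotKerEquivOfSurjective f0 hf0s
    let E1 := LinearMap.quotKerEquivOfSurjective f hfs
    refine ⟨((E0.symm.trans (Submodule.quotEquivOfEq _ _ (hf0k.trans hfk))).trans E1).toAddEquiv,
      ?_⟩
    apply Subtype.ext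
    apply LinearMap.ext
    intro v
    change E1 (Submodule.quotEquivOfEq _ _ (hf0k.trans hfk) (E0.symm (f0 v))) = f v
    have h1 : E0.symm (f0 v) = Submodule.Quotient.mk v := by
      rw [LinearEquiv.symm_apply_eq]
      rfl
    rw [h1]
    rfl

/-- Friedman and Washington, at a finite level -/
lemma muU_eq (hG : ∀ g : G, p ^ e • g = 0) [Fintype G] :
    muU (ZMod (p ^ (e + 1))) κ G * Nat.card (G ≃+ G) = gp κ G * pip p (Fintype.card κ) := by
  have : NeZero (p ^ (e + 1)) := ⟨pow_ne_zero _ hp.out.ne_zero⟩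
  set J := Fintype.card κ with hJ
  unfold muU
  rw [Ex_unif_card, gp_eq]
  have hfin : Finite ((κ → ZMod (p ^ (e + 1))) →ₗ[ZMod (p ^ (e + 1))] G) := DFunLike.finite _
  let _ : Fintype ((κ → ZMod (p ^ (e + 1))) →ₗ[ZMod (p ^ (e + 1))] G) := Fintype.ofFinite _
  have hdc : (Nat.card {x : κ → κ → ZMod (p ^ (e + 1)) // CokIso G x} : ℝ) * Nat.card (G ≃+ G)
      = Nat.card {g : κ → G // AddSubgroup.closure (Set.range g) = ⊤} *
        (pip p J * (((p : ℝ) ^ (e + 1)) ^ J / Nat.card G) ^ J) := by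
    have h1 : ∑ x : κ → κ → ZMod (p ^ (e + 1)),
        ∑ f : (κ → ZMod (p ^ (e + 1))) →ₗ[ZMod (p ^ (e + 1))] G,
          (if Function.Surjective f ∧
            Submodule.span (ZMod (p ^ (e + 1))) (Set.range x) = LinearMap.ker f then (1 : ℝ) else 0)
        = (Nat.card {x : κ → κ → ZMod (p ^ (e + 1)) // CokIso G x} : ℝ) * Nat.card (G ≃+ G) := by
      have h2 : ∀ x : κ → κ → ZMod (p ^ (e + 1)),
          ∑ f : (κ → ZMod (p ^ (e + 1))) →ₗ[ZMod (p ^ (e + 1))] G,
          (if Function.Surjective f ∧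
            Submodule.span (ZMod (p ^ (e + 1))) (Set.range x) = LinearMap.ker f then (1 : ℝ) else 0)
          = if CokIso G x then (Nat.card (G ≃+ G) : ℝ) else 0 := by
        intro x
        rw [Finset.sum_boole]
        split_ifs with hx
        · rw [← cnt3 x hx, Nat.card_eq_fintype_card, Fintype.card_subtype]
        · rw [Nat.cast_eq_zero, Finset.card_eq_zero, Finset.filter_eq_empty_iff]
          rintro f _ ⟨hf1, hf2⟩
          apply hx
          unfold CokIso
          rw [hf2]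
          exact ⟨(LinearMap.quotKerEquivOfSurjective f hf1).toAddEquiv⟩
      rw [Finset.sum_congr rfl (fun x _ => h2 x), ← Finset.sum_filter, Finset.sum_const,
        nsmul_eq_mul, Nat.card_eq_fintype_card (α := {x // CokIso G x}), Fintype.card_subtype]
    rw [← h1, Finset.sum_comm]
    have h3 : ∀ f : (κ → ZMod (p ^ (e + 1))) →ₗ[ZMod (p ^ (e + 1))] G,
        ∑ x : κ → κ → ZMod (p ^ (e + 1)), (if Function.Surjective f ∧
            Submodule.span (ZMod (p ^ (e + 1))) (Set.range x) = LinearMap.ker f then (1 : ℝ) else 0)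
        = if Function.Surjective f then
          (pip p J * (((p : ℝ) ^ (e + 1)) ^ J / Nat.card G) ^ J) else 0 := by
      intro f
      split_ifs with hf
      · rw [← cnt1 hG f hf, Finset.sum_boole, Nat.card_eq_fintype_card, Fintype.card_subtype]
        simp only [hf, true_and]
      · simp [hf]
    rw [Finset.sum_congr rfl (fun f _ => h3 f), ← Finset.sum_filter, Finset.sum_const,
      nsmul_eq_mul, ← cnt2 (p := p) (e := e) (κ := κ) (G := G), Nat.card_eq_fintype_card
        (α := {f : (κ → ZMod (p ^ (e + 1))) →ₗ[ZMod (p ^ (e + 1))] G // Function.Surjective f}),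
      Fintype.card_subtype]
  have hcard : (Fintype.card (κ → ZMod (p ^ (e + 1))) : ℝ) = ((p : ℝ) ^ (e + 1)) ^ J := by
    rw [Fintype.card_fun, ZMod.card]
    push_cast
    rfl
  rw [hcard, div_mul_eq_mul_div, hdc]
  have h4 : (0 : ℝ) < Nat.card G := by exact_mod_cast Nat.card_pos
  have hp0 : (0 : ℝ) < p := by exact_mod_cast hp.out.pos
  rw [div_pow, ← Nat.card_eq_fintype_card (α := G), ← hJ]
  field_simp

end count

/-- a random family generates `G` with probability close to one -/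
lemma gp_ge {κ : Type*} [Fintype κ] {G : Type*} [AddCommGroup G] [Fintype G] :
    1 - (Nat.card (AddSubgroup G) : ℝ) * (1 / 2) ^ (Fintype.card κ) ≤ gp κ G := by
  have hfin : Finite (AddSubgroup G) := inferInstance
  let _ : Fintype (AddSubgroup G) := Fintype.ofFinite _
  have hG0 : (0 : ℝ) < Fintype.card G := by exact_mod_cast Fintype.card_pos
  have hu : ∀ c : κ, ∑ v : G, (fun (_ : κ) (_ : G) => (Fintype.card G : ℝ)⁻¹) c v = 1 := by
    intro c
    simp only [Finset.sum_const, Finset.card_univ, nsmul_eq_mul]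
    exact mul_inv_cancel₀ hG0.ne'
  unfold gp
  have h1 : (1 : ℝ) ≤ Ex (fun (_ : κ) (_ : G) => (Fintype.card G : ℝ)⁻¹)
      (fun x => (if AddSubgroup.closure (Set.range x) = ⊤ then 1 else 0) +
        ∑ H : AddSubgroup G, if H ≠ ⊤ ∧ ∀ c, x c ∈ H then 1 else 0) := by
    refine le_trans (Ex_const hu 1).ge (Ex_mono (fun _ _ => by positivity) fun x => ?_)
    have h0 : ∀ H : AddSubgroup G, (0 : ℝ) ≤ if H ≠ ⊤ ∧ ∀ c, x c ∈ H then 1 else 0 := fun H => by
      split_ifs <;> norm_num
    split_ifs with h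
    · have := Finset.sum_nonneg fun H (_ : H ∈ (univ : Finset (AddSubgroup G))) => h0 H
      linarith
    · rw [zero_add]
      refine le_trans ?_ (Finset.single_le_sum (fun H _ => h0 H)
        (mem_univ (AddSubgroup.closure (Set.range x))))
      rw [if_pos ⟨h, fun c => AddSubgroup.subset_closure ⟨c, rfl⟩⟩]
  rw [Ex_add, Ex_sum] at h1
  have h2 : ∀ H : AddSubgroup G, Ex (fun (_ : κ) (_ : G) => (Fintype.card G : ℝ)⁻¹)
      (fun x => if H ≠ ⊤ ∧ ∀ c, x c ∈ H then 1 else 0) ≤ (1 / 2 : ℝ) ^ (Fintype.card κ) := by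
    intro H
    by_cases hH : H = ⊤
    · simp only [hH, ne_eq, not_true_eq_false, false_and, if_false]
      rw [Ex_const hu]
      positivity
    · simp only [hH, ne_eq, not_false_eq_true, true_and]
      have h3 := Ex_unif_card (κ := κ) (K := G) (fun x => ∀ c, x c ∈ H)
      have h4 : Nat.card {x : κ → G // ∀ c, x c ∈ H} = (Nat.card H) ^ (Fintype.card κ) := by
        have h5 : Nat.card {x : κ → G // ∀ c, x c ∈ H} = Nat.card (κ → H) :=
          Nat.card_congr (Equiv.subtypePiEquivPi (p := fun (_ : κ) (g : G) => g ∈ H))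
        rw [h5, Nat.card_fun, Nat.card_eq_fintype_card (α := κ)]
      refine le_of_eq_of_le ?_ (?_ : ((Nat.card H : ℝ) / Fintype.card G) ^ (Fintype.card κ) ≤ _)
      · rw [div_pow]
        rw [h4] at h3
        push_cast at h3
        convert h3
      · refine pow_le_pow_left₀ (by positivity) ?_ _
        rw [div_le_iff₀ hG0]
        have h5 := AddSubgroup.card_mul_index H
        have h6 : 2 ≤ H.index := by
          have h7 : H.index ≠ 0 := AddSubgroup.FiniteIndex.index_ne_zero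
          have h8 : H.index ≠ 1 := fun h => hH (AddSubgroup.index_eq_one.1 h)
          omega
        rw [Nat.card_eq_fintype_card (α := G)] at h5
        have h9 : Nat.card H * 2 ≤ Fintype.card G := by
          rw [← h5]
          exact Nat.mul_le_mul_left _ h6
        have h10 : (Nat.card H : ℝ) * 2 ≤ Fintype.card G := by exact_mod_cast h9
        linarith
  have h3 : ∑ H : AddSubgroup G, Ex (fun (_ : κ) (_ : G) => (Fintype.card G : ℝ)⁻¹)
      (fun x => if H ≠ ⊤ ∧ ∀ c, x c ∈ H then 1 else 0)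
      ≤ (Nat.card (AddSubgroup G) : ℝ) * (1 / 2 : ℝ) ^ (Fintype.card κ) := by
    refine (Finset.sum_le_sum fun H _ => h2 H).trans ?_
    rw [Finset.sum_const, nsmul_eq_mul, Finset.card_univ, Nat.card_eq_fintype_card]
  linarith

lemma gp_le_one {κ : Type*} [Fintype κ] {G : Type*} [AddCommGroup G] [Fintype G] :
    gp κ G ≤ 1 := by
  have hG0 : (0 : ℝ) < Fintype.card G := by exact_mod_cast Fintype.card_pos
  have hu : ∀ c : κ, ∑ v : G, (fun (_ : κ) (_ : G) => (Fintype.card G : ℝ)⁻¹) c v = 1 := by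
    intro c
    simp only [Finset.sum_const, Finset.card_univ, nsmul_eq_mul]
    exact mul_inv_cancel₀ hG0.ne'
  unfold gp
  refine le_trans (Ex_mono (fun _ _ => by positivity) fun x => ?_) (Ex_const hu 1).le
  split_ifs <;> norm_num

end Pool.Agent.X143.CL
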