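import Mathlib
import Pool.Agent.X143.CL.FW

set_option linter.unusedSectionVars false

namespace Pool.Agent.X143.CL

open Finset Matrix MeasureTheory
open scoped Classical

section alg

variable {p e : ℕ} [hp : Fact p.Prime]

/-- reduction modulo `p` of `ZMod (p^(e+1))` -/
noncomputable def redp (p e : ℕ) : ZMod (p ^ (e + 1)) →+* ZMod p :=
  ZMod.castHom (dvd_pow_self p (Nat.succ_ne_zero e)) (ZMod p)

lemma redp_natCast (m : ℕ) : redp p e (m : ZMod (p ^ (e + 1))) = (m : ZMod p) := map_natCast _ _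

lemma loc : Loc p (e + 1) (redp p e) := by
  have hne : NeZero (p ^ (e + 1)) := ⟨pow_ne_zero _ hp.out.ne_zero⟩
  refine ⟨ZMod.castHom_surjective _, ?_, ?_, ?_, ⟨e + 1, Nat.card_zmod _⟩⟩
  · intro r hr
    obtain ⟨m, hm⟩ : ∃ m : ℕ, r = (m : ZMod (p ^ (e + 1))) := ⟨r.val, (ZMod.natCast_zmod_val r).symm⟩
    subst hm
    rw [redp_natCast, Ne, ZMod.natCast_eq_zero_iff] at hr
    rw [ZMod.isUnit_iff_coprime]
    exact Nat.Coprime.pow_right _ ((Nat.Prime.coprime_iff_not_dvd hp.out).2 hr).symm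
  · intro r hr
    obtain ⟨m, hm⟩ : ∃ m : ℕ, r = (m : ZMod (p ^ (e + 1))) := ⟨r.val, (ZMod.natCast_zmod_val r).symm⟩
    subst hm
    rw [redp_natCast, ZMod.natCast_eq_zero_iff] at hr
    obtain ⟨k, rfl⟩ := hr
    exact ⟨(k : ZMod (p ^ (e + 1))), by push_cast; rfl⟩
  · have := ZMod.natCast_self (p ^ (e + 1))
    push_cast at this
    exact this

/-- the reduction `ℤ_p → ZMod (p^(e+1))` -/
noncomputable def rd (p e : ℕ) [Fact p.Prime] : ℤ_[p] →+* ZMod (p ^ (e + 1)) :=
  PadicInt.toZModPow (e + 1)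

lemma rd_surj : Function.Surjective (rd p e) := ZMod.ringHom_surjective _

lemma rd_eq_zero {a : ℤ_[p]} : rd p e a = 0 ↔ ∃ b, a = (p : ℤ_[p]) ^ (e + 1) * b := by
  rw [← RingHom.mem_ker]
  unfold rd
  rw [PadicInt.ker_toZModPow, Ideal.mem_span_singleton]
  rfl

lemma isUnit_rd {a : ℤ_[p]} : IsUnit (rd p e a) ↔ IsUnit a := by
  constructor
  · intro h
    by_contra hna
    have h1 : ‖a‖ < 1 := by
      rw [PadicInt.isUnit_iff] at hna
      exact lt_of_le_of_ne (PadicInt.norm_le_one a) hna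
    rw [PadicInt.norm_lt_one_iff_dvd] at h1
    obtain ⟨b, rfl⟩ := h1
    have h2 : (rd p e ((p : ℤ_[p]) * b)) ^ (e + 1) = 0 := by
      rw [← map_pow, mul_pow]
      exact rd_eq_zero.2 ⟨_, rfl⟩
    have h3 := h.pow (e + 1)
    rw [h2] at h3
    have hnt : Nontrivial (ZMod (p ^ (e + 1))) := by
      have : Fact (1 < p ^ (e + 1)) := ⟨Nat.one_lt_pow (Nat.succ_ne_zero e) hp.out.one_lt⟩
      infer_instance
    exact not_isUnit_zero h3
  · intro h
    exact h.map (rd p e)

lemma isUnit_iff_toZMod {a : ℤ_[p]} : IsUnit a ↔ PadicInt.toZMod a ≠ 0 := by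
  rw [Ne, ← RingHom.mem_ker, PadicInt.ker_toZMod, IsLocalRing.mem_maximalIdeal, mem_nonunits_iff,
    not_not]

/-- characterisation of `CokIso` with surjections -/
lemma cokIso_iff {R : Type*} [CommRing R] {κ : Type*} {G : Type*} [AddCommGroup G]
    (x : κ → κ → R) : CokIso G x ↔ ∃ f : (κ → R) →+ G, Function.Surjective f ∧
      ∀ v, f v = 0 ↔ v ∈ Submodule.span R (Set.range x) := by
  constructor
  · rintro ⟨φ⟩
    refine ⟨φ.toAddMonoidHom.comp (Submodule.mkQ _).toAddMonoidHom,
      φ.surjective.comp (Submodule.mkQ_surjective _), ?_⟩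
    intro v
    change φ (Submodule.mkQ _ v) = 0 ↔ _
    rw [map_eq_zero_iff φ φ.injective, Submodule.mkQ_apply, Submodule.Quotient.mk_eq_zero]
  · rintro ⟨f, hf, hk⟩
    let g : (κ → R) →+ ((κ → R) ⧸ Submodule.span R (Set.range x)) :=
      (Submodule.mkQ (Submodule.span R (Set.range x))).toAddMonoidHom
    have hg : Function.Surjective g := Submodule.mkQ_surjective _
    have hker : f.ker = g.ker := by
      ext v
      rw [AddMonoidHom.mem_ker, AddMonoidHom.mem_ker, hk]
      change _ ↔ Submodule.mkQ _ v = 0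
      rw [Submodule.mkQ_apply, Submodule.Quotient.mk_eq_zero]
    exact ⟨(QuotientAddGroup.quotientKerEquivOfSurjective g hg).symm.trans
      ((QuotientAddGroup.quotientAddEquivOfEq hker.symm).trans
        (QuotientAddGroup.quotientKerEquivOfSurjective f hf))⟩

variable {κ : Type*} [Fintype κ] {G : Type*} [AddCommGroup G]

lemma mem_span_rd (x : κ → κ → ℤ_[p]) (v : κ → ℤ_[p]) :
    (fun i => rd p e (v i)) ∈ Submodule.span (ZMod (p ^ (e + 1)))
      (Set.range (fun c i => rd p e (x c i))) ↔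
    ∃ w ∈ Submodule.span ℤ_[p] (Set.range x), ∃ b : κ → ℤ_[p], v = w + (p : ℤ_[p]) ^ (e + 1) • b := by
  constructor
  · intro h
    rw [Submodule.mem_span_range_iff_exists_fun] at h
    obtain ⟨r, hr⟩ := h
    choose a ha using fun c => rd_surj (p := p) (e := e) (r c)
    refine ⟨∑ c, a c • x c, Submodule.sum_mem _ fun c _ => Submodule.smul_mem _ _
      (Submodule.subset_span ⟨c, rfl⟩), ?_⟩
    have h1 : ∀ i, rd p e ((v - ∑ c, a c • x c) i) = 0 := by
      intro i
      have h2 := congrFun hr i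
      rw [Finset.sum_apply] at h2
      rw [Pi.sub_apply, map_sub, Finset.sum_apply, map_sum, ← h2, sub_eq_zero]
      refine Finset.sum_congr rfl fun c _ => ?_
      rw [Pi.smul_apply, Pi.smul_apply, smul_eq_mul, smul_eq_mul, map_mul, ha]
    choose b hb using fun i => rd_eq_zero.1 (h1 i)
    refine ⟨b, ?_⟩
    funext i
    have := hb i
    rw [Pi.sub_apply] at this
    rw [Pi.add_apply, Pi.smul_apply, smul_eq_mul, ← this]
    ring
  · rintro ⟨w, hw, b, rfl⟩
    have h1 : (fun i => rd p e ((w + (p : ℤ_[p]) ^ (e + 1) • b) i)) = fun i => rd p e (w i) := by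
      funext i
      rw [Pi.add_apply, map_add, Pi.smul_apply, smul_eq_mul, rd_eq_zero.2 ⟨b i, rfl⟩, add_zero]
    rw [h1]
    rw [Submodule.mem_span_range_iff_exists_fun] at hw
    obtain ⟨a, rfl⟩ := hw
    have h2 : (fun i => rd p e ((∑ c, a c • x c) i))
        = ∑ c, rd p e (a c) • (fun i => rd p e (x c i)) := by
      funext i
      rw [Finset.sum_apply, map_sum, Finset.sum_apply]
      refine Finset.sum_congr rfl fun c _ => ?_
      rw [Pi.smul_apply, Pi.smul_apply, smul_eq_mul, smul_eq_mul, map_mul]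
    rw [h2]
    exact Submodule.sum_mem _ fun c _ => Submodule.smul_mem _ _ (Submodule.subset_span ⟨c, rfl⟩)

/-- the coordinatewise reduction -/
noncomputable def Rd (p e : ℕ) [Fact p.Prime] (κ : Type*) :
    (κ → ℤ_[p]) →+ (κ → ZMod (p ^ (e + 1))) where
  toFun v := fun i => rd p e (v i)
  map_zero' := by
    funext i
    simp
  map_add' a b := by
    funext i
    simp

lemma Rd_surj : Function.Surjective (Rd p e κ) := by
  intro z
  choose a ha using fun i => rd_surj (p := p) (e := e) (z i)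
  exact ⟨a, funext ha⟩

/-- comparison of the cokernels over `ℤ_p` and over `ZMod (p^(e+1))` -/
lemma cok_rd (hG : ∀ g : G, p ^ e • g = 0) (x : κ → κ → ℤ_[p]) :
    CokIso G x ↔ CokIso G (fun c i => rd p e (x c i)) := by
  rw [cokIso_iff, cokIso_iff]
  set N0 := Submodule.span ℤ_[p] (Set.range x) with hN0
  have main : (∀ b : κ → ℤ_[p], (p : ℤ_[p]) ^ (e + 1) • b ∈ N0) →
      ∀ v : κ → ℤ_[p], (fun i => rd p e (v i)) ∈ Submodule.span (ZMod (p ^ (e + 1)))
      (Set.range (fun c i => rd p e (x c i))) ↔ v ∈ N0 := by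
    intro h v
    rw [mem_span_rd]
    constructor
    · rintro ⟨w, hw, b, rfl⟩
      exact N0.add_mem hw (h b)
    · intro hv
      exact ⟨v, hv, 0, by simp⟩
  constructor
  · rintro ⟨f, hf, hk⟩
    have h1 : ∀ b : κ → ℤ_[p], (p : ℤ_[p]) ^ (e + 1) • b ∈ N0 := by
      intro b
      rw [← hk]
      have : (p : ℤ_[p]) ^ (e + 1) • b = p ^ e • (p • b) := by
        rw [pow_succ, mul_smul]
        funext i
        simp
      rw [this, map_nsmul, hG]
    have h2 : (Rd p e κ).ker ≤ f.ker := by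
      intro v hv
      rw [AddMonoidHom.mem_ker] at hv ⊢
      rw [hk, ← main h1]
      have h3 : (fun i => rd p e (v i)) = 0 := hv
      rw [h3]
      exact Submodule.zero_mem _
    let g := (Rd p e κ).liftOfSurjective Rd_surj ⟨f, h2⟩
    have hg : ∀ v, g (Rd p e κ v) = f v := fun v =>
      AddMonoidHom.liftOfRightInverse_comp_apply (Rd p e κ) _ _ ⟨f, h2⟩ v
    refine ⟨g, ?_, ?_⟩
    · intro z
      obtain ⟨v, rfl⟩ := hf z
      exact ⟨_, hg v⟩
    · intro z
      obtain ⟨v, rfl⟩ := Rd_surj (p := p) (e := e) z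
      rw [hg, hk, ← main h1]
      rfl
  · rintro ⟨f, hf, hk⟩
    have h1 : ∀ b : κ → ℤ_[p], (p : ℤ_[p]) ^ e • b ∈ N0 := by
      set N' : Submodule ℤ_[p] (κ → ℤ_[p]) :=
        LinearMap.range (LinearMap.lsmul ℤ_[p] (κ → ℤ_[p]) ((p : ℤ_[p]) ^ e)) with hN'
      have h2 : N' ≤ N0 := by
        apply Submodule.le_of_le_smul_of_le_jacobson_bot (I := Ideal.span {(p : ℤ_[p])})
        · exact IsNoetherian.noetherian N'
        · rw [IsLocalRing.jacobson_eq_maximalIdeal ⊥ bot_ne_top, PadicInt.maximalIdeal_eq_span_p]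
        · rintro _ ⟨b, rfl⟩
          rw [LinearMap.lsmul_apply]
          have h3 : (fun i => rd p e (((p : ℤ_[p]) ^ e • b) i)) ∈
              Submodule.span (ZMod (p ^ (e + 1))) (Set.range (fun c i => rd p e (x c i))) := by
            rw [← hk]
            have h4 : (fun i => rd p e (((p : ℤ_[p]) ^ e • b) i))
                = p ^ e • (fun i => rd p e (b i)) := by
              funext i
              rw [Pi.smul_apply, Pi.smul_apply, smul_eq_mul, nsmul_eq_mul, map_mul, map_pow,
                map_natCast]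
              push_cast
              rfl
            rw [h4, map_nsmul, hG]
          rw [mem_span_rd] at h3
          obtain ⟨w, hw, b', hb'⟩ := h3
          rw [hb']
          refine Submodule.add_mem_sup hw ?_
          rw [pow_succ', mul_smul]
          exact Submodule.smul_mem_smul (Ideal.mem_span_singleton_self _) ⟨b', rfl⟩
      intro b
      exact h2 ⟨b, rfl⟩
    have h1' : ∀ b : κ → ℤ_[p], (p : ℤ_[p]) ^ (e + 1) • b ∈ N0 := by
      intro b
      rw [pow_succ, mul_smul]
      exact h1 _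
    refine ⟨f.comp (Rd p e κ), hf.comp Rd_surj, ?_⟩
    intro v
    rw [← main h1', ← hk]
    rfl

end alg

end Pool.Agent.X143.CL
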