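import Mathlib
import Pool.Agent.X143.CL.Defs
import Pool.Agent.X143.CL.Padic

set_option linter.unusedSectionVars false

namespace Pool.Agent.X143.CL

open Finset Matrix MeasureTheory
open scoped Classical

section haar

variable {p e : ℕ} [hp : Fact p.Prime] [MeasurableSpace ℤ_[p]] [BorelSpace ℤ_[p]]

lemma meas_fib (r : ZMod (p ^ (e + 1))) : MeasurableSet {a : ℤ_[p] | rd p e a = r} := by
  obtain ⟨b, rfl⟩ := rd_surj r
  have h : {a : ℤ_[p] | rd p e a = rd p e b}
      = (fun a => a - b) ⁻¹' (Metric.closedBall 0 ((p : ℝ) ^ (-((e + 1 : ℕ) : ℤ)))) := by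
    ext a
    rw [Set.mem_preimage, mem_closedBall_zero_iff, PadicInt.norm_le_pow_iff_mem_span_pow,
      ← PadicInt.ker_toZModPow, RingHom.mem_ker, map_sub, sub_eq_zero]
    rfl
  rw [h]
  exact (Metric.isClosed_closedBall.preimage (by fun_prop)).measurableSet

lemma haar_fib (μ : Measure ℤ_[p]) [μ.IsAddHaarMeasure] [IsProbabilityMeasure μ]
    (r : ZMod (p ^ (e + 1))) :
    μ.real {a : ℤ_[p] | rd p e a = r} = (Fintype.card (ZMod (p ^ (e + 1))) : ℝ)⁻¹ := by
  have h1 : ∀ r : ZMod (p ^ (e + 1)), μ.real {a : ℤ_[p] | rd p e a = r}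
      = μ.real {a : ℤ_[p] | rd p e a = 0} := by
    intro r
    obtain ⟨b, rfl⟩ := rd_surj r
    have h2 : {a : ℤ_[p] | rd p e a = rd p e b}
        = (fun a => -b + a) ⁻¹' {a : ℤ_[p] | rd p e a = 0} := by
      ext a
      rw [Set.mem_preimage]
      change rd p e a = rd p e b ↔ rd p e (-b + a) = 0
      rw [map_add, map_neg, neg_add_eq_zero, eq_comm]
    rw [h2, Measure.real, measure_preimage_add]
    rfl
  have h2 : ∑ r : ZMod (p ^ (e + 1)), μ.real {a : ℤ_[p] | rd p e a = r} = 1 := by
    rw [← measureReal_biUnion_finset]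
    · have : (⋃ r ∈ (univ : Finset (ZMod (p ^ (e + 1)))), {a : ℤ_[p] | rd p e a = r})
          = Set.univ := by
        ext a
        simp
      rw [this]
      simp
    · intro r _ s _ hrs
      rw [Function.onFun, Set.disjoint_left]
      intro a ha hb
      exact hrs (ha.symm.trans hb)
    · intro r _
      exact meas_fib r
  rw [Finset.sum_congr rfl (fun r _ => h1 r), Finset.sum_const, Finset.card_univ,
    nsmul_eq_mul] at h2
  rw [h1 r]
  exact eq_inv_of_mul_eq_one_right h2

/-- vectors supported on `σ` -/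
def Vs {R : Type*} [CommRing R] {ι : Type*} (s : Finset ι) : AddSubgroup (ι → R) where
  carrier := {v | ∀ i ∉ s, v i = 0}
  add_mem' := fun {a b} ha hb i hi => by
    rw [Pi.add_apply, ha i hi, hb i hi, add_zero]
  zero_mem' := fun i _ => rfl
  neg_mem' := fun {a} ha i hi => by
    rw [Pi.neg_apply, ha i hi, neg_zero]

lemma uw_Vs {R : Type*} [CommRing R] [Fintype R] {ι : Type*} [Fintype ι]
    (s : Finset ι) (v : ι → R) :
    uw (Vs s) v = ∏ i, if i ∈ s then (Fintype.card R : ℝ)⁻¹ else if v i = 0 then 1 else 0 := by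
  set κ : ℝ := ∏ i : ι, if i ∈ s then (Fintype.card R : ℝ)⁻¹ else 1 with hκ
  have h1 : ∀ v : ι → R, (∏ i, if i ∈ s then (Fintype.card R : ℝ)⁻¹ else
      if v i = 0 then 1 else 0) = if v ∈ Vs s then κ else 0 := by
    intro v
    split_ifs with h
    · refine Finset.prod_congr rfl fun i _ => ?_
      by_cases hi : i ∈ s
      · simp [hi]
      · simp [hi, h i hi]
    · have : ∃ i, i ∉ s ∧ v i ≠ 0 := by
        by_contra hcon
        push Not at hcon
        exact h hcon
      obtain ⟨i, hi, hvi⟩ := this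
      exact Finset.prod_eq_zero (mem_univ i) (by simp [hi, hvi])
  have h2 : ∑ v : ι → R, (∏ i, if i ∈ s then (Fintype.card R : ℝ)⁻¹ else
      if v i = 0 then 1 else 0) = 1 := by
    have h3 := (Fintype.prod_sum (fun (i : ι) (r : R) =>
      if i ∈ s then (Fintype.card R : ℝ)⁻¹ else if r = 0 then 1 else 0)).symm
    rw [h3]
    apply Finset.prod_eq_one
    intro i _
    by_cases hi : i ∈ s
    · simp only [hi, if_true, Finset.sum_const, Finset.card_univ, nsmul_eq_mul]
      have : (Fintype.card R : ℝ) ≠ 0 := by exact_mod_cast Fintype.card_ne_zero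
      exact mul_inv_cancel₀ this
    · simp [hi]
  simp_rw [h1] at h2
  rw [← Finset.sum_filter, Finset.sum_const, nsmul_eq_mul] at h2
  have h4 : #{v : ι → R | v ∈ Vs s} = Nat.card (Vs (R := R) s) := by
    rw [Nat.card_eq_fintype_card, Fintype.card_subtype]
  rw [h4] at h2
  rw [h1]
  unfold uw
  rw [eq_inv_of_mul_eq_one_right h2]

lemma transfer (μ : Measure ℤ_[p]) [μ.IsAddHaarMeasure] [IsProbabilityMeasure μ] {n : ℕ}
    (σ : Fin n → Finset (Fin n)) (Q : (Fin n → Fin n → ZMod (p ^ (e + 1))) → Prop) :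
    (law μ σ).real {X | Q (fun c i => rd p e (X i c))} = Pr (fun c => Vs (σ c)) Q := by
  have hprob : ∀ i j : Fin n, IsProbabilityMeasure
      (if i ∈ σ j then μ else Measure.dirac (0 : ℤ_[p])) := by
    intro i j
    split_ifs <;> infer_instance
  have hreal : ∀ (i j : Fin n) (r : ZMod (p ^ (e + 1))),
      (if i ∈ σ j then μ else Measure.dirac (0 : ℤ_[p])).real {a : ℤ_[p] | rd p e a = r}
      = if i ∈ σ j then (Fintype.card (ZMod (p ^ (e + 1))) : ℝ)⁻¹ else if r = 0 then 1 else 0 := by
    intro i j r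
    split_ifs with h1 h2
    · exact haar_fib μ r
    · rw [Measure.real, Measure.dirac_apply' _ (meas_fib r)]
      subst h2
      simp
    · rw [Measure.real, Measure.dirac_apply' _ (meas_fib r)]
      rw [Set.indicator_of_notMem]
      · simp
      · intro h3
        apply h2
        have h4 : rd p e 0 = r := h3
        rw [map_zero] at h4
        exact h4.symm
  -- the fibres
  have hset : ∀ x : Fin n → Fin n → ZMod (p ^ (e + 1)),
      {X : Fin n → Fin n → ℤ_[p] | (fun c i => rd p e (X i c)) = x}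
      = Set.pi Set.univ (fun i => Set.pi Set.univ (fun j => {a : ℤ_[p] | rd p e a = x j i})) := by
    intro x
    ext X
    simp only [Set.mem_ofPred_eq, Set.mem_pi, Set.mem_univ, true_imp_iff, funext_iff]
    exact ⟨fun h i j => h j i, fun h j i => h i j⟩
  have hmeas : ∀ x : Fin n → Fin n → ZMod (p ^ (e + 1)),
      MeasurableSet {X : Fin n → Fin n → ℤ_[p] | (fun c i => rd p e (X i c)) = x} := by
    intro x
    rw [hset]
    exact MeasurableSet.univ_pi fun i => MeasurableSet.univ_pi fun j => meas_fib _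
  have hfib : ∀ x : Fin n → Fin n → ZMod (p ^ (e + 1)),
      (law μ σ).real {X | (fun c i => rd p e (X i c)) = x} = ∏ c, uw (Vs (σ c)) (x c) := by
    intro x
    rw [hset]
    unfold law
    rw [Measure.real, Measure.pi_pi, ENNReal.toReal_prod]
    simp_rw [Measure.pi_pi, ENNReal.toReal_prod, uw_Vs]
    rw [Finset.prod_comm]
    refine Finset.prod_congr rfl fun j _ => Finset.prod_congr rfl fun i _ => ?_
    have h5 := hreal i j (x j i)
    rw [Measure.real] at h5
    convert h5
  have hunion : {X : Fin n → Fin n → ℤ_[p] | Q (fun c i => rd p e (X i c))}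
      = ⋃ x ∈ (univ.filter Q), {X | (fun c i => rd p e (X i c)) = x} := by
    ext X
    simp
  have hfin : IsProbabilityMeasure (law μ σ) := by
    unfold law
    infer_instance
  rw [hunion, measureReal_biUnion_finset]
  · rw [Finset.sum_congr rfl (fun x _ => hfib x)]
    unfold Pr Ex
    rw [Finset.sum_filter]
    refine Finset.sum_congr rfl fun x _ => ?_
    by_cases hQ : Q x <;> simp [hQ]
  · intro r _ s _ hrs
    rw [Function.onFun, Set.disjoint_left]
    intro a ha hb
    exact hrs (Eq.trans (Eq.symm ha) hb)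
  · intro x _
    exact hmeas x

end haar

end Pool.Agent.X143.CL
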